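import Mathlib

/-!
# Link diagrams, Reidemeister moves, crossing number

A link diagram on the sphere is encoded by its (oriented) Gauss diagram.  Travelling along the
components of the link one passes every crossing twice, once over and once under; the elements of
`P` are these passes.  A Gauss diagram encodes a diagram drawn on the sphere exactly when its genus
is zero, i.e. when Euler's formula holds (`IsPlanar`).
-/

set_option autoImplicit false

namespace Pool.Agent.Work.MP_7250c3_gt

/-- An oriented Gauss diagram. `K` is the set of components (a component without crossings is an
element of `K` outside the range of `comp`), `P` is the set of passes through crossings.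
* `succ p` is the pass that follows `p` on its component;
* `partner p` is the other pass through the same crossing;
* `isOver p` says that `p` is the over-pass;
* `isPos p` says that the crossing of `p` is positive;
* `comp p` is the component on which `p` lies. -/
structure GaussDiagram where
  K : Type
  P : Type
  finK : Finite K
  finP : Finite P
  succ : Equiv.Perm P
  partner : P → P
  isOver : P → Bool
  isPos : P → Bool
  comp : P → K
  partner_partner : ∀ p, partner (partner p) = p
  over_partner : ∀ p, isOver (partner p) = !isOver p
  pos_partner : ∀ p, isPos (partner p) = isPos p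
  comp_eq_iff : ∀ p q, comp p = comp q ↔ succ.SameCycle p q

namespace GaussDiagram

variable (G : GaussDiagram)

/-- The number of crossings (each crossing has exactly one over-pass). -/
noncomputable def crossings : ℕ := Nat.card {p : G.P // G.isOver p = true}

/-- The edges of the diagram are indexed by passes: the edge `p` runs from the pass `p` to the pass
`succ p`.  `(p, true)` is this edge traversed forwards, `(p, false)` the same edge traversed
backwards.  `faceNext` walks along the boundary of the face on the left hand side: traverse the
edge and then turn left at the crossing. -/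
def faceNext (d : G.P × Bool) : G.P × Bool :=
  let r := if d.2 then G.succ d.1 else d.1
  let q := G.partner r
  if d.2 = (G.isOver r == G.isPos r) then (q, true) else (G.succ.symm q, false)

/-- The faces: classes of directed edges under `faceNext`. -/
def Face : Type := Quot (fun d d' : G.P × Bool => G.faceNext d = d')

/-- The connected pieces of the underlying graph (crossingless components are not counted). -/
def Piece : Type := Quot (fun p q : G.P => G.succ p = q ∨ G.partner p = q)

/-- Euler's formula `V - E + F = 2 C`, where `V` is the number of crossings, `E = 2 V`, `F` the
number of faces and `C` the number of connected pieces: every piece is drawn on a sphere. -/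
def IsPlanar : Prop := Nat.card G.Face = G.crossings + 2 * Nat.card G.Piece

/-- Travelling along each component, the crossings are met alternately as over- and
under-crossings. -/
def IsAlternating : Prop := ∀ p, G.isOver (G.succ p) = !G.isOver p

open Classical in
/-- Change the crossing with passes `x` and `partner x`: the over- and the under-strand are
switched, so the sign of the crossing changes as well. -/
noncomputable def changeCrossing (x : G.P) : GaussDiagram where
  K := G.K
  P := G.P
  finK := G.finK
  finP := G.finP
  succ := G.succ
  partner := G.partner
  isOver := fun p => if p = x ∨ p = G.partner x then !G.isOver p else G.isOver p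
  isPos := fun p => if p = x ∨ p = G.partner x then !G.isPos p else G.isPos p
  comp := G.comp
  partner_partner := G.partner_partner
  over_partner := by
    intro p
    have h : (G.partner p = x ∨ G.partner p = G.partner x) ↔ (p = x ∨ p = G.partner x) := by
      constructor
      · rintro (h | h)
        · right; rw [← h, G.partner_partner]
        · left; rw [← G.partner_partner p, h, G.partner_partner]
      · rintro (h | h)
        · right; rw [h]
        · left; rw [h, G.partner_partner]
    by_cases hp : p = x ∨ p = G.partner x
    · rw [if_pos (h.mpr hp), if_pos hp, G.over_partner]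
    · rw [if_neg (fun h' => hp (h.mp h')), if_neg hp, G.over_partner]
  pos_partner := by
    intro p
    have h : (G.partner p = x ∨ G.partner p = G.partner x) ↔ (p = x ∨ p = G.partner x) := by
      constructor
      · rintro (h | h)
        · right; rw [← h, G.partner_partner]
        · left; rw [← G.partner_partner p, h, G.partner_partner]
      · rintro (h | h)
        · right; rw [h]
        · left; rw [h, G.partner_partner]
    by_cases hp : p = x ∨ p = G.partner x
    · rw [if_pos (h.mpr hp), if_pos hp, G.pos_partner]
    · rw [if_neg (fun h' => hp (h.mp h')), if_neg hp, G.pos_partner]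
  comp_eq_iff := G.comp_eq_iff

/-- A diagram is almost alternating if it is not alternating but changing exactly one crossing
makes it alternating. -/
def IsAlmostAlternating : Prop := ¬ G.IsAlternating ∧ ∃ x, (G.changeCrossing x).IsAlternating

end GaussDiagram

/-- `Erasure G' G S`: the Gauss diagram `G` is obtained from `G'` by erasing the passes in `S` from
its cyclic words (up to isomorphism); the set of components is kept. -/
structure Erasure (G' G : GaussDiagram) (S : Set G'.P) where
  ι : G.P → G'.P
  κ : G.K ≃ G'.K
  ι_inj : Function.Injective ι
  range_ι : Set.range ι = Sᶜ
  partner_ι : ∀ p, G'.partner (ι p) = ι (G.partner p)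
  over_ι : ∀ p, G'.isOver (ι p) = G.isOver p
  pos_ι : ∀ p, G'.isPos (ι p) = G.isPos p
  comp_ι : ∀ p, G'.comp (ι p) = κ (G.comp p)
  succ_ι : ∀ p, ∃ n : ℕ, (G'.succ ^ (n + 1)) (ι p) = ι (G.succ p) ∧
    ∀ m < n, (G'.succ ^ (m + 1)) (ι p) ∈ S

/-- Isomorphism of diagrams. -/
def Iso (G' G : GaussDiagram) : Prop := Nonempty (Erasure G' G ∅)

/-- First Reidemeister move (removing a kink): a crossing whose two passes are consecutive is
erased. -/
def R1 (G' G : GaussDiagram) : Prop :=
  ∃ x : G'.P, G'.succ x = G'.partner x ∧ Nonempty (Erasure G' G {x, G'.partner x})

/-- Second Reidemeister move (removing a bigon): two crossings of opposite signs, such that the two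
over-passes are consecutive and the two under-passes are consecutive (in either order), are
erased. -/
def R2 (G' G : GaussDiagram) : Prop :=
  ∃ x y : G'.P, x ≠ y ∧ G'.isOver x = true ∧ G'.isOver y = true ∧ G'.isPos x ≠ G'.isPos y ∧
    G'.succ x = y ∧
    (G'.succ (G'.partner x) = G'.partner y ∨ G'.succ (G'.partner y) = G'.partner x) ∧
    Nonempty (Erasure G' G {x, y, G'.partner x, G'.partner y})

open Classical in
/-- Third Reidemeister move. In `G` there is a triangular face bounded by the edges `p` (both of its
ends are over-passes), `q` (one end over, one end under) and `r` (both ends under); `G'` is obtained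
by interchanging, in the cyclic words, the two ends of each of these three edges. -/
def R3 (G G' : GaussDiagram) : Prop :=
  ∃ (p q r : G.P) (a b c : Bool) (e : G.P ≃ G'.P) (κ : G.K ≃ G'.K),
    [p, G.succ p, q, G.succ q, r, G.succ r].Nodup ∧
    G.isOver p = true ∧ G.isOver (G.succ p) = true ∧
    G.isOver q ≠ G.isOver (G.succ q) ∧
    G.isOver r = false ∧ G.isOver (G.succ r) = false ∧
    ((G.faceNext (p, a) = (q, b) ∧ G.faceNext (q, b) = (r, c) ∧ G.faceNext (r, c) = (p, a)) ∨
     (G.faceNext (p, a) = (r, c) ∧ G.faceNext (r, c) = (q, b) ∧ G.faceNext (q, b) = (p, a))) ∧
    (∀ x, G'.partner (e x) = e (G.partner x)) ∧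
    (∀ x, G'.isOver (e x) = G.isOver x) ∧
    (∀ x, G'.isPos (e x) = G.isPos x) ∧
    (∀ x, G'.comp (e x) = κ (G.comp x)) ∧
    (∀ x, G'.succ (e ((Equiv.swap p (G.succ p) * Equiv.swap q (G.succ q) *
        Equiv.swap r (G.succ r)) x)) =
      e ((Equiv.swap p (G.succ p) * Equiv.swap q (G.succ q) * Equiv.swap r (G.succ r))
        (G.succ x)))

open Classical in
/-- Reversal of the orientation of the component `k`. -/
def Reorient (G G' : GaussDiagram) : Prop :=
  ∃ (k : G.K) (e : G.P ≃ G'.P) (κ : G.K ≃ G'.K),
    (∀ x, G'.partner (e x) = e (G.partner x)) ∧
    (∀ x, G'.isOver (e x) = G.isOver x) ∧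
    (∀ x, G'.comp (e x) = κ (G.comp x)) ∧
    (∀ x, G'.isPos (e x) = if (G.comp x = k) ↔ (G.comp (G.partner x) = k) then G.isPos x
      else !G.isPos x) ∧
    (∀ x, G'.succ (e x) = if G.comp x = k then e (G.succ.symm x) else e (G.succ x))

/-- A link diagram on the sphere: a Gauss diagram of genus zero. -/
structure LinkDiagram where
  toGauss : GaussDiagram
  planar : toGauss.IsPlanar

/-- Elementary moves between link diagrams. -/
def Move (D E : LinkDiagram) : Prop :=
  Iso D.toGauss E.toGauss ∨ Reorient D.toGauss E.toGauss ∨ R1 D.toGauss E.toGauss ∨
    R2 D.toGauss E.toGauss ∨ R3 D.toGauss E.toGauss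

/-- Two diagrams represent the same (unoriented) link iff they are connected by a finite sequence of
isomorphisms, orientation reversals and Reidemeister moves and their inverses. -/
def SameLink (D E : LinkDiagram) : Prop := Relation.EqvGen Move D E

/-- The crossing number of the link represented by `D`: the minimal number of crossings of a diagram
of this link. -/
noncomputable def crossingNumber (D : LinkDiagram) : ℕ :=
  sInf {n | ∃ E : LinkDiagram, SameLink D E ∧ E.toGauss.crossings = n}

end Pool.Agent.Work.MP_7250c3_gt
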