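import Pool.Agent.Work.MP_7250c3_gt.Lower

set_option autoImplicit false

namespace Pool.Agent.Work.MP_7250c3_gt

open Classical

/-! ### The explicit 13-crossing diagram -/

def succT : Fin 26 → Fin 26 :=
  ![1, 2, 3, 4, 5, 6, 7, 8, 9, 0, 11, 12, 13, 14, 15, 16, 17, 10, 19, 20, 21, 18, 23, 24, 25, 22]
def predT : Fin 26 → Fin 26 :=
  ![9, 0, 1, 2, 3, 4, 5, 6, 7, 8, 17, 10, 11, 12, 13, 14, 15, 16, 21, 18, 19, 20, 25, 22, 23, 24]
def partnerT : Fin 26 → Fin 26 :=
  ![11, 20, 7, 23, 15, 14, 24, 2, 19, 10, 9, 0, 21, 25, 5, 4, 22, 18, 17, 8, 1, 12, 16, 3, 6, 13]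
def overT : Fin 26 → Bool :=
  ![true, false, false, false, true, false, true, true, true, false, true, false, true, false,
    true, false, true, false, true, false, true, false, false, true, false, true]
def posT : Fin 26 → Bool :=
  ![false, true, false, true, true, true, true, false, true, false, false, false, false, true,
    true, true, true, false, false, true, true, false, true, true, true, true]
def compT : Fin 26 → Fin 4 :=
  ![0, 0, 0, 0, 0, 0, 0, 0, 0, 0, 1, 1, 1, 1, 1, 1, 1, 1, 2, 2, 2, 2, 3, 3, 3, 3]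

def succP : Equiv.Perm (Fin 26) where
  toFun := succT
  invFun := predT
  left_inv := by decide
  right_inv := by decide

theorem succP_iter (n : ℕ) (p : Fin 26) : (succP ^ n) p = succT^[n] p := by
  rw [← Equiv.Perm.iterate_eq_pow]; rfl

theorem comp_succT : ∀ p, compT (succT p) = compT p := by decide

theorem comp_iff (p q : Fin 26) : compT p = compT q ↔ succP.SameCycle p q := by
  constructor
  · intro h
    have key : ∀ p q : Fin 26, compT p = compT q → ∃ n : Fin 10, succT^[n.val] p = q := by decide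
    obtain ⟨n, hn⟩ := key p q h
    refine ⟨(n.val : ℤ), ?_⟩
    rw [zpow_natCast, succP_iter, hn]
  · intro h
    obtain ⟨n, hn⟩ := h.exists_nat_pow_eq
    rw [← hn]
    have : ∀ n : ℕ, compT ((succP ^ n) p) = compT p := by
      intro n
      induction n with
      | zero => rfl
      | succ n ih =>
        rw [pow_succ', Equiv.Perm.mul_apply]
        rw [← ih]
        exact comp_succT _
    exact (this n).symm

def exG : GaussDiagram where
  K := Fin 4
  P := Fin 26
  finK := inferInstance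
  finP := inferInstance
  succ := succP
  partner := partnerT
  isOver := overT
  isPos := posT
  comp := compT
  partner_partner := by decide
  over_partner := by decide
  pos_partner := by decide
  comp_eq_iff := comp_iff

/-- Explicit version of `faceNext`. -/
def fnT (d : Fin 26 × Bool) : Fin 26 × Bool :=
  let r := if d.2 then succT d.1 else d.1
  let q := partnerT r
  if d.2 = (overT r == posT r) then (q, true) else (predT q, false)

theorem fn_eq (d : Fin 26 × Bool) : exG.faceNext d = fnT d := rfl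

def labT (d : Fin 26 × Bool) : Fin 15 :=
  if d.2 then
    ![0, 2, 4, 6, 8, 10, 3, 2, 0, 12, 0, 1, 3, 10, 7, 6, 4, 11, 4, 2, 3, 14, 6, 7, 10, 8] d.1
  else
    ![1, 3, 5, 7, 9, 7, 5, 4, 11, 13, 12, 13, 14, 8, 9, 8, 14, 13, 11, 0, 1, 13, 4, 5, 3, 14] d.1

def repT : Fin 15 → Fin 26 × Bool :=
  ![(0, true), (0, false), (1, true), (1, false), (2, true), (2, false), (3, true), (3, false),
    (4, true), (4, false), (5, true), (8, false), (9, true), (9, false), (12, false)]

theorem lab_fn : ∀ d, labT (fnT d) = labT d := by decide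

theorem lab_rep : ∀ i, labT (repT i) = i := by decide

theorem rep_reach : ∀ d, ∃ n : Fin 5, fnT^[n.val] (repT (labT d)) = d := by decide

theorem card_face : Nat.card exG.Face = 15 := by
  let f : exG.Face → Fin 15 := Quot.lift labT (by
    intro a b h
    have h' : fnT a = b := h
    rw [← h']; exact (lab_fn a).symm)
  have hf : Function.Bijective f := by
    constructor
    · have reach : ∀ (n : ℕ) (d : Fin 26 × Bool),
          (Quot.mk _ (fnT^[n] d) : exG.Face) = Quot.mk _ d := by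
        intro n
        induction n with
        | zero => intro d; rfl
        | succ n ih =>
          intro d
          rw [Function.iterate_succ_apply, ih (fnT d)]
          exact (Quot.sound (r := fun d d' : exG.P × Bool => exG.faceNext d = d')
            (show exG.faceNext d = fnT d from rfl)).symm
      have toRep : ∀ d : Fin 26 × Bool, (Quot.mk _ d : exG.Face) = Quot.mk _ (repT (labT d)) := by
        intro d
        obtain ⟨n, hn⟩ := rep_reach d
        conv_lhs => rw [← hn]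
        exact reach _ _
      intro a b
      induction a using Quot.ind with | mk a =>
      induction b using Quot.ind with | mk b =>
      intro h
      have h' : labT a = labT b := h
      rw [toRep a, toRep b, h']
    · intro i
      exact ⟨Quot.mk _ (repT i), lab_rep i⟩
  rw [Nat.card_eq_of_bijective f hf]
  simp

theorem card_piece : Nat.card exG.Piece = 1 := by
  have hstep : ∀ p : Fin 26, p ≠ 0 → ∃ p' : Fin 26, p' < p ∧ (succT p' = p ∨ partnerT p' = p) := by
    decide
  have all : ∀ n : ℕ, ∀ h : n < 26, (Quot.mk _ (⟨n, h⟩ : Fin 26) : exG.Piece) =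
      Quot.mk _ (0 : Fin 26) := by
    intro n
    induction n using Nat.strong_induction_on with
    | _ n ih =>
      intro h
      by_cases h0 : (⟨n, h⟩ : Fin 26) = 0
      · exact congrArg _ h0
      · obtain ⟨p', hlt, hp⟩ := hstep _ h0
        refine Eq.trans ?_ (ih p'.val hlt p'.isLt)
        exact (Quot.sound (r := fun p q : exG.P => exG.succ p = q ∨ exG.partner p = q)
          (show exG.succ p' = (⟨n, h⟩ : Fin 26) ∨ exG.partner p' = (⟨n, h⟩ : Fin 26) from hp)).symm
  rw [Nat.card_eq_one_iff_unique]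
  refine ⟨⟨fun a b => ?_⟩, ⟨Quot.mk _ (0 : Fin 26)⟩⟩
  induction a using Quot.ind with | mk a =>
  induction b using Quot.ind with | mk b =>
  exact (all a.val a.isLt).trans (all b.val b.isLt).symm

theorem card_crossings : exG.crossings = 13 := by
  have h : Nat.card {p : Fin 26 // overT p = true} = 13 := by
    rw [Nat.card_eq_fintype_card]; decide
  exact h

theorem exG_planar : exG.IsPlanar := by
  show Nat.card exG.Face = exG.crossings + 2 * Nat.card exG.Piece
  rw [card_face, card_piece, card_crossings]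

def exD : LinkDiagram := ⟨exG, exG_planar⟩

theorem exG_almost : exG.IsAlmostAlternating := by
  constructor
  · intro h
    have h1 : overT (succT 1) = !overT 1 := h (1 : Fin 26)
    revert h1; decide
  · refine ⟨(2 : Fin 26), ?_⟩
    intro p
    let o : Fin 26 → Bool := fun p => if (p = 2 ∨ p = 7) then !overT p else overT p
    have ho : ∀ p : Fin 26, (exG.changeCrossing (2 : Fin 26)).isOver p = o p := by
      intro p
      by_cases hp : p = 2 ∨ p = 7
      · exact (if_pos hp).trans (if_pos hp).symm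
      · exact (if_neg hp).trans (if_neg hp).symm
    have key : ∀ p : Fin 26, o (succT p) = !o p := by decide
    have h1 := ho p
    have h2 := ho (succT p)
    show (exG.changeCrossing (2 : Fin 26)).isOver (succT p) =
      !(exG.changeCrossing (2 : Fin 26)).isOver p
    rw [h1, h2]; exact key p

theorem ov_exG (i j : Fin 4) : ov exG i j =
    (Finset.univ.filter (fun p : Fin 26 => overT p = true ∧ compT p = i ∧
      compT (partnerT p) = j)).card := by
  unfold ov
  rw [← Set.ncard_coe_finset]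
  congr 1
  ext p
  simp
  rfl

def colA : Fin 26 → Fin 3 × ZMod 16 :=
  ![(1, 0), (1, 0), (1, 8), (1, 8), (1, 8), (1, 4), (1, 4), (1, 4), (1, 4), (1, 0), (2, 2),
    (2, 14), (2, 14), (2, 14), (2, 14), (2, 2), (2, 2), (2, 2), (0, 0), (0, 0), (0, 0), (0, 0),
    (0, 0), (0, 0), (0, 0), (0, 0)]

theorem ex_colA : ∃ c, IsCol exG (lamOp la) (colT exG (0 : Fin 4) (1 : Fin 4) (S 4 0) (S 4 8)) c := by
  refine ⟨colA, ?_, ?_⟩
  · intro p
    have key : ∀ p : Fin 26, (compT p = 0 → (colA p).1 = 1 ∧ 4 * (colA p).2 = 0) ∧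
        (compT p = 1 → (colA p).1 = 2 ∧ 4 * (colA p).2 = 8) ∧
        (compT p ≠ 0 → compT p ≠ 1 → colA p = (0, 0)) := by decide
    obtain ⟨k1, k2, k3⟩ := key p
    show colA p ∈ colT exG (0 : Fin 4) (1 : Fin 4) (S 4 0) (S 4 8) (compT p)
    by_cases h0 : compT p = 0
    · have e : colT exG (0 : Fin 4) (1 : Fin 4) (S 4 0) (S 4 8) (compT p) =
        {x | x.1 = 1 ∧ x.2 ∈ S 4 0} := if_pos h0
      rw [e]; exact k1 h0
    · by_cases h1 : compT p = 1
      · have e : colT exG (0 : Fin 4) (1 : Fin 4) (S 4 0) (S 4 8) (compT p) =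
          {x | x.1 = 2 ∧ x.2 ∈ S 4 8} := (if_neg h0).trans (if_pos h1)
        rw [e]; exact k2 h1
      · have e : colT exG (0 : Fin 4) (1 : Fin 4) (S 4 0) (S 4 8) (compT p) =
          {(0, 0)} := (if_neg h0).trans (if_neg h1)
        rw [e]; exact k3 h0 h1
  · have key : ∀ p : Fin 26, colA (succT p) = if overT (succT p) = true then colA p
        else lamOp la (colA p) (colA (partnerT (succT p))) := by
      unfold lamOp la
      decide
    exact key

/-- The rule on second coordinates for twisted colourings. -/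
theorem rule_b {G : GaussDiagram} {k j : G.K} (hkj : k ≠ j) {a b : ZMod 16}
    {c : G.P → Fin 3 × ZMod 16} (hc : IsCol G (lamOp lb) (colT G k j (S 8 a) (S 4 b)) c) :
    (∀ v, G.comp v = k → 8 * (c v).2 = a) ∧ (∀ v, G.comp v = j → 4 * (c v).2 = b) ∧
    (∀ p, G.isOver (G.succ p) = true → (c (G.succ p)).2 = (c p).2) ∧
    (∀ p, G.isOver (G.succ p) = false → G.comp (G.partner (G.succ p)) ≠ k →
      G.comp (G.partner (G.succ p)) ≠ j → (c (G.succ p)).2 = (c p).2) ∧
    (∀ p, G.comp p = k → G.isOver (G.succ p) = false → G.comp (G.partner (G.succ p)) = k →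
      (c (G.succ p)).2 = 2 * (c (G.partner (G.succ p))).2 - (c p).2) ∧
    (∀ p, G.comp p = k → G.isOver (G.succ p) = false → G.comp (G.partner (G.succ p)) = j →
      (c (G.succ p)).2 = (c (G.partner (G.succ p))).2 - (c p).2) ∧
    (∀ p, G.comp p = j → G.isOver (G.succ p) = false → G.comp (G.partner (G.succ p)) = k →
      (c (G.succ p)).2 = 4 * (c (G.partner (G.succ p))).2 - (c p).2) ∧
    (∀ p, G.comp p = j → G.isOver (G.succ p) = false → G.comp (G.partner (G.succ p)) = j →
      (c (G.succ p)).2 = 2 * (c (G.partner (G.succ p))).2 - (c p).2) := by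
  obtain ⟨h1, h2⟩ := hc
  have hk : ∀ v, G.comp v = k → (c v).1 = 1 ∧ 8 * (c v).2 = a := by
    intro v hv
    have := h1 v
    rw [hv] at this
    simpa [colT, S] using this
  have hj : ∀ v, G.comp v = j → (c v).1 = 2 ∧ 4 * (c v).2 = b := by
    intro v hv
    have := h1 v
    rw [hv] at this
    simpa [colT, S, hkj.symm] using this
  have hn : ∀ v, G.comp v ≠ k → G.comp v ≠ j → c v = (0, 0) := by
    intro v hv hv'
    have := h1 v
    simpa [colT, hv, hv'] using this
  refine ⟨fun v hv => (hk v hv).2, fun v hv => (hj v hv).2, ?_, ?_, ?_, ?_, ?_, ?_⟩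
  · intro p ho
    have := h2 p
    rw [if_pos ho] at this
    rw [this]
  · intro p ho h3 h4
    have := h2 p
    rw [ho] at this
    simp only [Bool.false_eq_true, if_false] at this
    rw [this, hn _ h3 h4]
    simp [lamOp]
  · intro p hp ho h3
    have := h2 p
    rw [ho] at this
    simp only [Bool.false_eq_true, if_false] at this
    rw [this]
    simp [lamOp, (hk _ hp).1, (hk _ h3).1, lb]
  · intro p hp ho h3
    have := h2 p
    rw [ho] at this
    simp only [Bool.false_eq_true, if_false] at this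
    rw [this]
    simp [lamOp, (hk _ hp).1, (hj _ h3).1, lb]
  · intro p hp ho h3
    have := h2 p
    rw [ho] at this
    simp only [Bool.false_eq_true, if_false] at this
    rw [this]
    simp [lamOp, (hj _ hp).1, (hk _ h3).1, lb]
  · intro p hp ho h3
    have := h2 p
    rw [ho] at this
    simp only [Bool.false_eq_true, if_false] at this
    rw [this]
    simp [lamOp, (hj _ hp).1, (hj _ h3).1, lb]

theorem key_b : ∀ A1 A3 B1 A2 B2 : ZMod 16, A2 = 2 * A3 - A1 → A3 = B2 - A2 → A1 = B1 - A3 →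
      B2 = 4 * A1 - B1 → 8 * A1 = 0 → 4 * B1 = 8 → False := by
  intro A1 A3 B1 A2 B2 g1 g2 g3 g4 g5 g6
  have h : (8 : ZMod 16) = 0 := by
    linear_combination g5 + g2 + g3 - g1 + g4 - 4 * g3 - g6
  revert h; decide

theorem ex_noB : ¬ ∃ c, IsCol exG (lamOp lb) (colT exG (0 : Fin 4) (1 : Fin 4) (S 8 0) (S 4 8)) c := by
  rintro ⟨c, hc⟩
  obtain ⟨r1, r2, r3, r4, r5, r6, r7, r8⟩ := rule_b (show (0 : Fin 4) ≠ 1 by decide) hc
  let x : Fin 26 → ZMod 16 := fun p => (c p).2
  have e0 : x 0 = x 9 := r3 (9 : Fin 26) rfl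
  have e1 : x 1 = x 0 := r4 (0 : Fin 26) rfl (show (2 : Fin 4) ≠ 0 by decide)
    (show (2 : Fin 4) ≠ 1 by decide)
  have e2 : x 2 = 2 * x 7 - x 1 := r5 (1 : Fin 26) rfl rfl rfl
  have e3 : x 3 = x 2 := r4 (2 : Fin 26) rfl (show (3 : Fin 4) ≠ 0 by decide)
    (show (3 : Fin 4) ≠ 1 by decide)
  have e4 : x 4 = x 3 := r3 (3 : Fin 26) rfl
  have e5 : x 5 = x 14 - x 4 := r6 (4 : Fin 26) rfl rfl rfl
  have e6 : x 6 = x 5 := r3 (5 : Fin 26) rfl
  have e7 : x 7 = x 6 := r3 (6 : Fin 26) rfl
  have e8 : x 8 = x 7 := r3 (7 : Fin 26) rfl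
  have e9 : x 9 = x 10 - x 8 := r6 (8 : Fin 26) rfl rfl rfl
  have e11 : x 11 = 4 * x 0 - x 10 := r7 (10 : Fin 26) rfl rfl rfl
  have e12 : x 12 = x 11 := r3 (11 : Fin 26) rfl
  have e13 : x 13 = x 12 := r4 (12 : Fin 26) rfl (show (3 : Fin 4) ≠ 0 by decide)
    (show (3 : Fin 4) ≠ 1 by decide)
  have e14 : x 14 = x 13 := r3 (13 : Fin 26) rfl
  have h8 : 8 * x 9 = 0 := r1 (9 : Fin 26) rfl
  have h4 : 4 * x 10 = 8 := r2 (10 : Fin 26) rfl
  refine key_b (x 9) (x 5) (x 10) (x 4) (x 14) ?_ ?_ ?_ ?_ h8 h4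
  · rw [e4, e3, e2, e7, e6, e1, e0]
  · exact e5
  · rw [← e6, ← e7, ← e8]; exact e9
  · rw [e14, e13, e12, e11, e0]

theorem key_c : ∀ A1 A3 B1 A2 B2 : ZMod 16, A2 = 2 * A3 - A1 → A3 = 4 * B2 - A2 → A1 = 4 * B1 - A3 →
      B2 = A1 - B1 → B1 = A2 - B2 → 4 * A1 = 0 → 8 * B1 = 8 → False := by
  intro A1 A3 B1 A2 B2 g1 g2 g3 g4 g5 g6 g7
  have h : (8 : ZMod 16) = 0 := by
    linear_combination g6 + g4 - g5 - g1 - 2 * g3 - g7
  revert h; decide

theorem ex_noC : ¬ ∃ c, IsCol exG (lamOp lb) (colT exG (1 : Fin 4) (0 : Fin 4) (S 8 8) (S 4 0)) c := by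
  rintro ⟨c, hc⟩
  obtain ⟨r1, r2, r3, r4, r5, r6, r7, r8⟩ := rule_b (show (1 : Fin 4) ≠ 0 by decide) hc
  let x : Fin 26 → ZMod 16 := fun p => (c p).2
  have e0 : x 0 = x 9 := r3 (9 : Fin 26) rfl
  have e1 : x 1 = x 0 := r4 (0 : Fin 26) rfl (show (2 : Fin 4) ≠ 1 by decide)
    (show (2 : Fin 4) ≠ 0 by decide)
  have e2 : x 2 = 2 * x 7 - x 1 := r8 (1 : Fin 26) rfl rfl rfl
  have e3 : x 3 = x 2 := r4 (2 : Fin 26) rfl (show (3 : Fin 4) ≠ 1 by decide)
    (show (3 : Fin 4) ≠ 0 by decide)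
  have e4 : x 4 = x 3 := r3 (3 : Fin 26) rfl
  have e5 : x 5 = 4 * x 14 - x 4 := r7 (4 : Fin 26) rfl rfl rfl
  have e6 : x 6 = x 5 := r3 (5 : Fin 26) rfl
  have e7 : x 7 = x 6 := r3 (6 : Fin 26) rfl
  have e8 : x 8 = x 7 := r3 (7 : Fin 26) rfl
  have e9 : x 9 = 4 * x 10 - x 8 := r7 (8 : Fin 26) rfl rfl rfl
  have e10 : x 10 = x 17 := r3 (17 : Fin 26) rfl
  have e11 : x 11 = x 0 - x 10 := r6 (10 : Fin 26) rfl rfl rfl
  have e12 : x 12 = x 11 := r3 (11 : Fin 26) rfl
  have e13 : x 13 = x 12 := r4 (12 : Fin 26) rfl (show (3 : Fin 4) ≠ 1 by decide)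
    (show (3 : Fin 4) ≠ 0 by decide)
  have e14 : x 14 = x 13 := r3 (13 : Fin 26) rfl
  have e15 : x 15 = x 4 - x 14 := r6 (14 : Fin 26) rfl rfl rfl
  have e16 : x 16 = x 15 := r3 (15 : Fin 26) rfl
  have e17 : x 17 = x 16 := r4 (16 : Fin 26) rfl (show (2 : Fin 4) ≠ 1 by decide)
    (show (2 : Fin 4) ≠ 0 by decide)
  have h8 : 8 * x 10 = 8 := r1 (10 : Fin 26) rfl
  have h4 : 4 * x 9 = 0 := r2 (9 : Fin 26) rfl
  refine key_c (x 9) (x 5) (x 10) (x 4) (x 14) ?_ ?_ ?_ ?_ ?_ h4 h8
  · rw [e4, e3, e2, e7, e6, e1, e0]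
  · exact e5
  · rw [← e6, ← e7, ← e8]; exact e9
  · rw [e14, e13, e12, e11, e0]
  · rw [e10, e17, e16, e15]

end Pool.Agent.Work.MP_7250c3_gt
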