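import Pool.Agent.Work.MP_7250c3_gt.Defs

set_option autoImplicit false

namespace Pool.Agent.Work.MP_7250c3_gt

open Classical

/-- The number of crossings where component `i` passes over component `j`. -/
noncomputable def ov (G : GaussDiagram) (i j : G.K) : ℕ :=
  Set.ncard {p : G.P | G.isOver p = true ∧ G.comp p = i ∧ G.comp (G.partner p) = j}

/-- Involutory quandle axioms. -/
structure IsKei {Q : Type} (op : Q → Q → Q) : Prop where
  idem : ∀ x, op x x = x
  invol : ∀ x y, op (op x y) y = x
  dist : ∀ x y z, op (op x y) z = op (op x z) (op y z)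

/-- Colouring of the edges (the edge leaving `p` gets colour `c p`). -/
def IsCol (G : GaussDiagram) {Q : Type} (op : Q → Q → Q) (t : G.K → Set Q) (c : G.P → Q) : Prop :=
  (∀ p, c p ∈ t (G.comp p)) ∧
  ∀ p, c (G.succ p) = if G.isOver (G.succ p) = true then c p
    else op (c p) (c (G.partner (G.succ p)))

/-- Invariance relation. -/
def Same (G G' : GaussDiagram) : Prop :=
  ∃ κ : G.K ≃ G'.K, (∀ i j, i ≠ j → ov G i j % 2 = ov G' (κ i) (κ j) % 2) ∧
    ∀ (Q : Type) (op : Q → Q → Q), IsKei op → ∀ t : G'.K → Set Q,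
      (∀ k k' x y, x ∈ t k → y ∈ t k' → op x y ∈ t k) → (∀ k, (t k).Nonempty) →
      ((∃ c, IsCol G op (fun k => t (κ k)) c) ↔ ∃ c, IsCol G' op t c)

theorem Same.refl (G : GaussDiagram) : Same G G :=
  ⟨Equiv.refl _, fun _ _ _ => rfl, fun _ _ _ _ _ _ => Iff.rfl⟩

theorem Same.symm {G G' : GaussDiagram} (h : Same G G') : Same G' G := by
  obtain ⟨κ, h1, h2⟩ := h
  refine ⟨κ.symm, ?_, ?_⟩
  · intro i j hij
    have := h1 (κ.symm i) (κ.symm j) (fun h => hij (κ.symm.injective h))
    simpa using this.symm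
  · intro Q op hop t ht hn
    have := h2 Q op hop (fun k => t (κ.symm k)) (fun k k' x y hx hy => ht _ _ x y hx hy)
      (fun k => hn _)
    simp only [Equiv.symm_apply_apply] at this
    exact this.symm

theorem Same.trans {G G' G'' : GaussDiagram} (h : Same G G') (h' : Same G' G'') : Same G G'' := by
  obtain ⟨κ, h1, h2⟩ := h
  obtain ⟨κ', h1', h2'⟩ := h'
  refine ⟨κ.trans κ', ?_, ?_⟩
  · intro i j hij
    rw [h1 i j hij, h1' (κ i) (κ j) (fun h => hij (κ.injective h))]
    rfl
  · intro Q op hop t ht hn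
    rw [← h2' Q op hop t ht hn, ← h2 Q op hop (fun k => t (κ' k))
      (fun k k' x y hx hy => ht _ _ x y hx hy) (fun k => hn _)]
    rfl

theorem comp_succ (G : GaussDiagram) (p : G.P) : G.comp (G.succ p) = G.comp p :=
  (G.comp_eq_iff _ _).mpr ⟨-1, by simp⟩

/-! ### Erasures -/

section Erasure

variable {G' G : GaussDiagram} {S : Set G'.P} (E : Erasure G' G S)
include E

theorem ι_notMem (p : G.P) : E.ι p ∉ S := by
  have : E.ι p ∈ Sᶜ := E.range_ι ▸ Set.mem_range_self p
  exact this

theorem exists_ι {q : G'.P} (hq : q ∉ S) : ∃ p, E.ι p = q := by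
  have : q ∈ Set.range E.ι := E.range_ι ▸ hq
  exact this

/-- Colourings restrict along an erasure provided the erased pairs act trivially. -/
theorem restrict_col {Q : Type} {op : Q → Q → Q} {t : G'.K → Set Q} (F : Set G'.P)
    (hF1 : ∀ f ∈ F, f ∈ S ∧ G'.succ f ∈ S ∧ G'.succ f ∉ F)
    (hF2 : ∀ s ∈ S, s ∉ F → G'.succ.symm s ∈ F)
    (c' : G'.P → Q) (hc : IsCol G' op t c')
    (hnet : ∀ f ∈ F, c' (G'.succ f) = c' (G'.succ.symm f)) :
    IsCol G op (fun k => t (E.κ k)) (fun p => c' (E.ι p)) := by
  have key : ∀ (p : G.P) (n : ℕ), (∀ m < n, (G'.succ ^ (m + 1)) (E.ι p) ∈ S) → ∀ m ≤ n,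
      ((G'.succ ^ m) (E.ι p) ∉ F → c' ((G'.succ ^ m) (E.ι p)) = c' (E.ι p)) ∧
      ((G'.succ ^ m) (E.ι p) ∈ F → c' (G'.succ.symm ((G'.succ ^ m) (E.ι p))) = c' (E.ι p)) := by
    intro p n hn m
    induction m with
    | zero =>
      intro _
      refine ⟨fun _ => by simp, fun h => ?_⟩
      exact (ι_notMem E p (hF1 _ h).1).elim
    | succ m ih =>
      intro hm
      have ih := ih (by omega)
      have e1 : (G'.succ ^ (m + 1)) (E.ι p) = G'.succ ((G'.succ ^ m) (E.ι p)) := by
        rw [pow_succ']; rfl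
      constructor
      · intro hnF
        have hS : (G'.succ ^ (m + 1)) (E.ι p) ∈ S := hn m (by omega)
        have hpF := hF2 _ hS hnF
        rw [e1, Equiv.symm_apply_apply] at hpF
        have := ih.2 hpF
        rw [e1, hnet _ hpF, this]
      · intro hF
        rw [e1, Equiv.symm_apply_apply]
        apply ih.1
        intro hF'
        apply (hF1 _ hF').2.2
        rw [← e1]; exact hF
  refine ⟨?_, ?_⟩
  · intro p
    have := hc.1 (E.ι p)
    rw [E.comp_ι] at this
    exact this
  · intro p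
    obtain ⟨n, hn1, hn2⟩ := E.succ_ι p
    have e1 : (G'.succ ^ (n + 1)) (E.ι p) = G'.succ ((G'.succ ^ n) (E.ι p)) := by
      rw [pow_succ']; rfl
    have hlast : c' ((G'.succ ^ n) (E.ι p)) = c' (E.ι p) := by
      apply (key p n hn2 n le_rfl).1
      intro hF
      have := (hF1 _ hF).2.1
      rw [← e1, hn1] at this
      exact ι_notMem E _ this
    have h := hc.2 ((G'.succ ^ n) (E.ι p))
    rw [← e1, hn1, E.over_ι, E.partner_ι, hlast] at h
    exact h

/-- Transport of colours to the erased passes. -/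
theorem exists_base {Q : Type} {t : G'.K → Set Q} (hne : ∀ k, (t k).Nonempty) (c : G.P → Q)
    (hc : ∀ p, c p ∈ t (E.κ (G.comp p))) :
    ∃ β : G'.P → Q, (∀ p, β (E.ι p) = c p) ∧ (∀ q, G'.succ q ∈ S → β (G'.succ q) = β q) ∧
      (∀ q r, G'.succ q = E.ι r → β q = c (G.succ.symm r)) ∧ ∀ q, β q ∈ t (G'.comp q) := by
  let Base : G'.P → G.P → Prop := fun q p =>
    ∃ m : ℕ, (G'.succ ^ m) (E.ι p) = q ∧ ∀ j < m, (G'.succ ^ (j + 1)) (E.ι p) ∈ S
  have pow1 : ∀ (m : ℕ) (x : G'.P), (G'.succ ^ (m + 1)) x = G'.succ ((G'.succ ^ m) x) := by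
    intro m x; rw [pow_succ']; rfl
  have uniq : ∀ q p p', Base q p → Base q p' → p = p' := by
    have aux : ∀ q p p' m m', m ≤ m' → (G'.succ ^ m) (E.ι p) = q → (G'.succ ^ m') (E.ι p') = q →
        (∀ j < m', (G'.succ ^ (j + 1)) (E.ι p') ∈ S) → p = p' := by
      intro q p p' m m' hmm h1 h2 h3
      have h4 : (G'.succ ^ m) ((G'.succ ^ (m' - m)) (E.ι p')) = (G'.succ ^ m) (E.ι p) := by
        rw [h1, ← h2, ← Equiv.Perm.mul_apply, ← pow_add]
        congr 2; omega
      have h5 := (G'.succ ^ m).injective h4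
      rcases Nat.eq_zero_or_pos (m' - m) with h6 | h6
      · rw [h6, pow_zero] at h5
        exact (E.ι_inj h5).symm
      · exfalso
        have := h3 (m' - m - 1) (by omega)
        rw [Nat.sub_add_cancel h6, h5] at this
        exact ι_notMem E p this
    rintro q p p' ⟨m, h1, h2⟩ ⟨m', h1', h2'⟩
    rcases le_total m m' with h | h
    · exact aux q p p' m m' h h1 h1' h2'
    · exact (aux q p' p m' m h h1' h1 h2).symm
  have base0 : ∀ p, Base (E.ι p) p := fun p => ⟨0, by simp, by simp⟩
  have baseS : ∀ q p, G'.succ q ∈ S → (Base (G'.succ q) p ↔ Base q p) := by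
    intro q p hS
    constructor
    · rintro ⟨m, h1, h2⟩
      rcases m with _ | m
      · rw [pow_zero] at h1
        have : E.ι p = G'.succ q := h1
        rw [← this] at hS
        exact (ι_notMem E p hS).elim
      · refine ⟨m, ?_, fun j hj => h2 j (by omega)⟩
        rw [pow1] at h1
        exact G'.succ.injective h1
    · rintro ⟨m, h1, h2⟩
      refine ⟨m + 1, by rw [pow1, h1], fun j hj => ?_⟩
      rcases Nat.lt_or_ge j m with h | h
      · exact h2 j h
      · have : j = m := by omega
        subst this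
        rw [pow1, h1]; exact hS
  have baseR : ∀ q r, G'.succ q = E.ι r → Base q (G.succ.symm r) := by
    intro q r h
    obtain ⟨n, h1, h2⟩ := E.succ_ι (G.succ.symm r)
    refine ⟨n, ?_, fun j hj => h2 j hj⟩
    rw [Equiv.apply_symm_apply, ← h, pow1] at h1
    exact G'.succ.injective h1
  have compB : ∀ q p, Base q p → G'.comp q = E.κ (G.comp p) := by
    rintro q p ⟨m, h1, _⟩
    rw [← E.comp_ι, ← h1]
    refine (G'.comp_eq_iff _ _).mpr ⟨-(m : ℤ), ?_⟩
    simp
  let β : G'.P → Q := fun q => if h : ∃ p, Base q p then c h.choose else (hne (G'.comp q)).some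
  have hβ : ∀ q p, Base q p → β q = c p := by
    intro q p h
    have hex : ∃ p, Base q p := ⟨p, h⟩
    simp only [β, dif_pos hex]
    rw [uniq q _ _ hex.choose_spec h]
  refine ⟨β, fun p => hβ _ _ (base0 p), ?_, ?_, ?_⟩
  · intro q hS
    by_cases hex : ∃ p, Base q p
    · obtain ⟨p, hp⟩ := hex
      rw [hβ q p hp, hβ _ p ((baseS q p hS).mpr hp)]
    · have hex' : ¬ ∃ p, Base (G'.succ q) p := by
        rintro ⟨p, hp⟩
        exact hex ⟨p, (baseS q p hS).mp hp⟩
      simp only [β, dif_neg hex, dif_neg hex', comp_succ]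
  · intro q r h
    exact hβ _ _ (baseR q r h)
  · intro q
    by_cases hex : ∃ p, Base q p
    · obtain ⟨p, hp⟩ := hex
      rw [hβ q p hp, compB q p hp]
      exact hc p
    · simp only [β, dif_neg hex]
      exact (hne _).some_mem

theorem ov_erasure (i j : G.K) : ov G' (E.κ i) (E.κ j) = ov G i j +
    Set.ncard ({p : G'.P | G'.isOver p = true ∧ G'.comp p = E.κ i ∧
      G'.comp (G'.partner p) = E.κ j} ∩ S) := by
  have := G'.finP
  set A' : Set G'.P := {p : G'.P | G'.isOver p = true ∧ G'.comp p = E.κ i ∧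
      G'.comp (G'.partner p) = E.κ j} with hA'
  set A : Set G.P := {p : G.P | G.isOver p = true ∧ G.comp p = i ∧
      G.comp (G.partner p) = j} with hA
  have h1 : A' \ S = E.ι '' A := by
    ext q
    constructor
    · rintro ⟨hq, hS⟩
      obtain ⟨p, rfl⟩ := exists_ι E hS
      refine ⟨p, ?_, rfl⟩
      simp only [hA', Set.mem_setOf_eq, E.over_ι, E.partner_ι, E.comp_ι,
        EmbeddingLike.apply_eq_iff_eq] at hq
      exact hq
    · rintro ⟨p, hp, rfl⟩
      refine ⟨?_, ι_notMem E p⟩
      simp only [hA', Set.mem_setOf_eq, E.over_ι, E.partner_ι, E.comp_ι,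
        EmbeddingLike.apply_eq_iff_eq]
      exact hp
  show Set.ncard A' = Set.ncard A + Set.ncard (A' ∩ S)
  rw [← Set.ncard_inter_add_ncard_diff_eq_ncard A' S (Set.toFinite _), h1,
    Set.ncard_image_of_injective _ E.ι_inj, add_comm]

end Erasure

theorem Same.iso {G' G : GaussDiagram} (h : Iso G' G) : Same G' G := by
  obtain ⟨E⟩ := h
  apply Same.symm
  refine ⟨E.κ, ?_, ?_⟩
  · intro i j _
    rw [ov_erasure E i j]; simp
  · intro Q op hop t ht hne
    constructor
    · rintro ⟨c, hc⟩
      obtain ⟨β, h1, h2, h3, h4⟩ := exists_base E hne c hc.1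
      refine ⟨β, h4, ?_⟩
      intro q
      obtain ⟨r, hr⟩ := exists_ι E (q := G'.succ q) (by simp)
      rw [← hr, h1, h3 q r hr.symm, E.over_ι, E.partner_ι, h1]
      have := hc.2 (G.succ.symm r)
      rw [Equiv.apply_symm_apply] at this
      exact this
    · rintro ⟨c, hc⟩
      exact ⟨_, restrict_col E ∅ (by simp) (by simp) c hc (by simp)⟩

theorem Same.R1 {G' G : GaussDiagram} (h : R1 G' G) : Same G' G := by
  obtain ⟨x, hx, ⟨E⟩⟩ := h
  apply Same.symm
  have hxx : x ≠ G'.partner x := by
    intro h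
    have := G'.over_partner x
    rw [← h] at this
    simp at this
  have hcomp : G'.comp (G'.partner x) = G'.comp x := by rw [← hx, comp_succ]
  have hover : G'.isOver (G'.partner x) = !G'.isOver x := G'.over_partner x
  refine ⟨E.κ, ?_, ?_⟩
  · intro i j hij
    rw [ov_erasure E i j]
    have : ({p : G'.P | G'.isOver p = true ∧ G'.comp p = E.κ i ∧
      G'.comp (G'.partner p) = E.κ j} ∩ {x, G'.partner x}) = ∅ := by
      ext q
      simp only [Set.mem_inter_iff, Set.mem_setOf_eq, Set.mem_insert_iff,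
        Set.mem_singleton_iff, Set.mem_empty_iff_false, iff_false, not_and]
      rintro ⟨_, h1, h2⟩ h3
      apply hij
      apply E.κ.injective
      rw [← h1, ← h2]
      rcases h3 with rfl | rfl
      · exact hcomp.symm
      · rw [G'.partner_partner, hcomp]
    rw [this]; simp
  · intro Q op hop t ht hne
    constructor
    · rintro ⟨c, hc⟩
      obtain ⟨β, h1, h2, h3, h4⟩ := exists_base E hne c hc.1
      refine ⟨β, h4, ?_⟩
      intro q
      by_cases hS : G'.succ q ∈ ({x, G'.partner x} : Set G'.P)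
      · have hβ := h2 q hS
        have hβx : β (G'.partner x) = β x := by
          rw [← hx]; apply h2; rw [hx]; simp
        have hp : β (G'.partner (G'.succ q)) = β (G'.succ q) := by
          rcases hS with h | h
          · rw [h, hβx]
          · rw [h, G'.partner_partner, hβx]
        rw [hp, hβ, hop.idem]
        simp
      · obtain ⟨r, hr⟩ := exists_ι E hS
        rw [← hr, h1, h3 q r hr.symm, E.over_ι, E.partner_ι, h1]
        have := hc.2 (G.succ.symm r)
        rw [Equiv.apply_symm_apply] at this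
        exact this
    · rintro ⟨c, hc⟩
      refine ⟨_, restrict_col E {x} ?_ ?_ c hc ?_⟩
      · rintro f rfl
        refine ⟨by simp, by rw [hx]; simp, ?_⟩
        rw [hx]; exact fun h => hxx h.symm
      · intro s hs hsF
        rcases hs with h | h
        · exact (hsF h).elim
        · rw [h, ← hx, Equiv.symm_apply_apply]; rfl
      · rintro f rfl
        have e1 := hc.2 f
        have e2 := hc.2 (G'.succ.symm f)
        rw [Equiv.apply_symm_apply] at e2
        rw [hx] at e1 ⊢
        rw [G'.partner_partner, hover] at e1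
        cases ho : G'.isOver f
        · rw [ho] at e1 e2
          simp only [Bool.not_false, if_true, Bool.false_eq_true, if_false] at e1 e2
          rw [e1] at e2 ⊢
          have := hop.invol (c (G'.succ.symm f)) (c f)
          rw [← e2, hop.idem] at this
          exact this
        · rw [ho] at e1 e2
          simp only [Bool.not_true, if_true, Bool.false_eq_true, if_false] at e1 e2
          rw [e1, e2, hop.idem]

end Pool.Agent.Work.MP_7250c3_gt
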