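import Pool.Agent.Work.MP_7250c3_gt.Inv

set_option autoImplicit false

namespace Pool.Agent.Work.MP_7250c3_gt

open Classical

theorem r2core {G' G : GaussDiagram} {S : Set G'.P} (E : Erasure G' G S) (x y f g : G'.P)
    (hS : S = {x, y, f, g}) (hxy : G'.succ x = y) (hfg : G'.succ f = g) (hxy' : x ≠ y)
    (hfg' : f ≠ g) (ox : G'.isOver x = true) (oy : G'.isOver y = true)
    (of : G'.isOver f = false) (og : G'.isOver g = false)
    (hpf : G'.partner f = x ∨ G'.partner f = y) (hpg : G'.partner g = x ∨ G'.partner g = y)
    {Q : Type} {op : Q → Q → Q} (hop : IsKei op) (t : G'.K → Set Q)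
    (ht : ∀ k k' x y, x ∈ t k → y ∈ t k' → op x y ∈ t k) (hne : ∀ k, (t k).Nonempty) :
    (∃ c, IsCol G op (fun k => t (E.κ k)) c) ↔ ∃ c, IsCol G' op t c := by
  have hxf : x ≠ f := by rintro rfl; rw [ox] at of; cases of
  have hxg : x ≠ g := by rintro rfl; rw [ox] at og; cases og
  have hyf : y ≠ f := by rintro rfl; rw [oy] at of; cases of
  have hyg : y ≠ g := by rintro rfl; rw [oy] at og; cases og
  have memS : ∀ q, q ∈ S ↔ q = x ∨ q = y ∨ q = f ∨ q = g := by
    intro q; rw [hS]; simp
  constructor
  · rintro ⟨c, hc⟩
    obtain ⟨β, h1, h2, h3, h4⟩ := exists_base E hne c hc.1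
    have βxy : β y = β x := by rw [← hxy]; apply h2; rw [hxy, memS]; simp
    have βfg : β g = β f := by rw [← hfg]; apply h2; rw [hfg, memS]; simp
    let c' : G'.P → Q := fun q => if q = f then op (β f) (β x) else β q
    have c'f : c' f = op (β f) (β x) := if_pos rfl
    have c'n : ∀ q, q ≠ f → c' q = β q := fun q hq => if_neg hq
    refine ⟨c', ?_, ?_⟩
    · intro q
      by_cases hq : q = f
      · rw [hq, c'f]; exact ht _ _ _ _ (h4 f) (h4 x)
      · rw [c'n q hq]; exact h4 q
    · intro q
      by_cases hqS : G'.succ q ∈ S
      · have hβ := h2 q hqS
        rcases (memS _).mp hqS with h | h | h | h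
        · -- succ q = x
          have hqf : q ≠ f := by
            rintro rfl; rw [hfg] at h; exact hxg h.symm
          rw [if_pos (by rw [h]; exact ox), c'n _ (by rw [h]; exact hxf), c'n _ hqf, hβ]
        · have hqf : q ≠ f := by
            rintro rfl; rw [hfg] at h; exact hyg h.symm
          rw [if_pos (by rw [h]; exact oy), c'n _ (by rw [h]; exact hyf), c'n _ hqf, hβ]
        · have hqf : q ≠ f := by
            rintro rfl; rw [hfg] at h; exact hfg' h.symm
          rw [if_neg (by rw [h, of]; decide), h, c'f, c'n q hqf]
          rw [h] at hβ
          rw [← hβ]
          have : c' (G'.partner f) = β x := by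
            rcases hpf with h' | h'
            · rw [h', c'n _ hxf]
            · rw [h', c'n _ hyf, βxy]
          rw [this]
        · have hqf : q = f := by
            rw [← hfg] at h; exact G'.succ.injective h
          rw [if_neg (by rw [h, og]; decide), h, hqf, c'f, c'n g hfg'.symm, βfg]
          have : c' (G'.partner g) = β x := by
            rcases hpg with h' | h'
            · rw [h', c'n _ hxf]
            · rw [h', c'n _ hyf, βxy]
          rw [this, hop.invol]
      · obtain ⟨r, hr⟩ := exists_ι E hqS
        have hqf : q ≠ f := by
          rintro rfl
          apply hqS; rw [hfg, memS]; simp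
        have nf : ∀ p, E.ι p ≠ f := by
          intro p hp
          have := ι_notMem E p
          rw [hp, memS] at this
          simp at this
        rw [c'n q hqf, ← hr, c'n _ (nf r), E.over_ι, E.partner_ι, c'n _ (nf _), h1, h1,
          h3 q r hr.symm]
        have := hc.2 (G.succ.symm r)
        rw [Equiv.apply_symm_apply] at this
        exact this
  · rintro ⟨c, hc⟩
    refine ⟨_, restrict_col E {x, f} ?_ ?_ c hc ?_⟩
    · intro w hw
      rcases hw with rfl | hw
      · rw [hxy]
        refine ⟨by rw [memS]; simp, by rw [memS]; simp, ?_⟩
        rintro (h | h)
        · exact hxy' h.symm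
        · exact hyf h
      · rw [Set.mem_singleton_iff] at hw
        subst hw
        rw [hfg]
        refine ⟨by rw [memS]; simp, by rw [memS]; simp, ?_⟩
        rintro (h | h)
        · exact hxg h.symm
        · exact hfg' h.symm
    · intro s hs hsF
      rcases (memS s).mp hs with rfl | rfl | rfl | rfl
      · exact (hsF (by simp)).elim
      · rw [← hxy, Equiv.symm_apply_apply]; simp
      · exact (hsF (by simp)).elim
      · rw [← hfg, Equiv.symm_apply_apply]; simp
    · have ex : c x = c (G'.succ.symm x) := by
        have := hc.2 (G'.succ.symm x)
        rw [Equiv.apply_symm_apply, if_pos ox] at this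
        exact this
      have ey : c y = c x := by
        have := hc.2 x
        rw [hxy, if_pos oy] at this
        exact this
      intro w hw
      rcases hw with rfl | hw
      · rw [hxy, ey, ex]
      · rw [Set.mem_singleton_iff] at hw
        subst hw
        have e1 := hc.2 w
        have e2 := hc.2 (G'.succ.symm w)
        rw [Equiv.apply_symm_apply, of] at e2
        rw [hfg, og] at e1
        simp only [Bool.false_eq_true, if_false] at e1 e2
        have p1 : c (G'.partner w) = c x := by
          rcases hpf with h' | h' <;> rw [h']; exact ey
        have p2 : c (G'.partner g) = c x := by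
          rcases hpg with h' | h' <;> rw [h']; exact ey
        rw [hfg, e1, e2, p1, p2, hop.invol]

theorem Same.R2 {G' G : GaussDiagram} (h : R2 G' G) : Same G' G := by
  obtain ⟨x, y, hxy', ox, oy, _, hxy, hpp, ⟨E⟩⟩ := h
  apply Same.symm
  have opx : G'.isOver (G'.partner x) = false := by rw [G'.over_partner, ox]; rfl
  have opy : G'.isOver (G'.partner y) = false := by rw [G'.over_partner, oy]; rfl
  have hpxy : G'.partner x ≠ G'.partner y := by
    intro h
    apply hxy'
    rw [← G'.partner_partner x, h, G'.partner_partner]
  refine ⟨E.κ, ?_, ?_⟩
  · intro i j hij
    rw [ov_erasure E i j]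
    set A' : Set G'.P := {p : G'.P | G'.isOver p = true ∧ G'.comp p = E.κ i ∧
      G'.comp (G'.partner p) = E.κ j} with hA'
    have hcx : G'.comp y = G'.comp x := by rw [← hxy, comp_succ]
    have hcp : G'.comp (G'.partner y) = G'.comp (G'.partner x) := by
      rcases hpp with h | h
      · rw [← h, comp_succ]
      · rw [← h, comp_succ]
    by_cases hx : x ∈ A'
    · have hy : y ∈ A' := by
        refine ⟨oy, ?_, ?_⟩
        · rw [hcx]; exact hx.2.1
        · rw [hcp]; exact hx.2.2
      have : A' ∩ {x, y, G'.partner x, G'.partner y} = {x, y} := by
        ext q
        constructor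
        · rintro ⟨hq, h | h | h | h⟩
          · left; exact h
          · right; exact h
          · rw [h] at hq; rw [hq.1] at opx; cases opx
          · rw [h] at hq; rw [hq.1] at opy; cases opy
        · rintro (h | h)
          · rw [h]; exact ⟨hx, by simp⟩
          · rw [h]; exact ⟨hy, by simp⟩
      rw [this, Set.ncard_pair hxy']
      omega
    · have hy : y ∉ A' := by
        intro hy
        apply hx
        refine ⟨ox, ?_, ?_⟩
        · rw [← hcx]; exact hy.2.1
        · rw [← hcp]; exact hy.2.2
      have : A' ∩ {x, y, G'.partner x, G'.partner y} = ∅ := by
        ext q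
        simp only [Set.mem_empty_iff_false, iff_false]
        rintro ⟨hq, h | h | h | h⟩
        · rw [h] at hq; exact hx hq
        · rw [h] at hq; exact hy hq
        · rw [h] at hq; rw [hq.1] at opx; cases opx
        · rw [h] at hq; rw [hq.1] at opy; cases opy
      rw [this]; simp
  · intro Q op hop t ht hne
    rcases hpp with h | h
    · exact r2core E x y (G'.partner x) (G'.partner y) rfl hxy h hxy' hpxy ox oy opx opy
        (Or.inl (G'.partner_partner x)) (Or.inr (G'.partner_partner y)) hop t ht hne
    · refine r2core E x y (G'.partner y) (G'.partner x) ?_ hxy h hxy' hpxy.symm ox oy opy opx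
        (Or.inr (G'.partner_partner y)) (Or.inl (G'.partner_partner x)) hop t ht hne
      ext q; simp only [Set.mem_insert_iff, Set.mem_singleton_iff]; tauto

theorem Same.reorient {G G' : GaussDiagram} (h : Reorient G G') : Same G G' := by
  obtain ⟨k, e, κ, hp, ho, hc, _, hs⟩ := h
  have := G'.finP
  refine ⟨κ, ?_, ?_⟩
  · intro i j _
    have : ov G' (κ i) (κ j) = ov G i j := by
      unfold ov
      have : {p : G'.P | G'.isOver p = true ∧ G'.comp p = κ i ∧ G'.comp (G'.partner p) = κ j} =
          e '' {p : G.P | G.isOver p = true ∧ G.comp p = i ∧ G.comp (G.partner p) = j} := by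
        ext q
        obtain ⟨p, rfl⟩ := e.surjective q
        simp only [Set.mem_image, EmbeddingLike.apply_eq_iff_eq, exists_eq_right]
        show _ ∧ _ ∧ _ ↔ _ ∧ _ ∧ _
        rw [ho, hp, hc, hc]
        simp
      rw [this, Set.ncard_image_of_injective _ e.injective]
    rw [this]
  · intro Q op hop t ht hne
    -- the transport of a colouring
    have hsp : ∀ x, G.comp x = k → G'.succ (e x) = e (G.succ.symm x) := by
      intro x hx; rw [hs, if_pos hx]
    have hsn : ∀ x, G.comp x ≠ k → G'.succ (e x) = e (G.succ x) := by
      intro x hx; rw [hs, if_neg hx]
    have csymm : ∀ x, G.comp (G.succ.symm x) = G.comp x := by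
      intro x
      have := comp_succ G (G.succ.symm x)
      rw [Equiv.apply_symm_apply] at this
      exact this.symm
    constructor
    · rintro ⟨c, hc1, hc2⟩
      have overc : ∀ x, G.isOver x = true → c (G.succ.symm x) = c x := by
        intro x hx
        have := hc2 (G.succ.symm x)
        rw [Equiv.apply_symm_apply, if_pos hx] at this
        exact this.symm
      refine ⟨fun q => if G.comp (e.symm q) = k then c (G.succ.symm (e.symm q)) else c (e.symm q),
        ?_, ?_⟩
      · intro q
        obtain ⟨p, rfl⟩ := e.surjective q
        simp only [Equiv.symm_apply_apply, hc]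
        split_ifs
        · have := hc1 (G.succ.symm p)
          rw [csymm] at this
          exact this
        · exact hc1 p
      · intro q
        obtain ⟨p, rfl⟩ := e.surjective q
        -- colour of over passes
        have hov : ∀ r, G.isOver r = true →
            (if G.comp r = k then c (G.succ.symm r) else c r) = c r := by
          intro r hr
          split_ifs
          · exact overc r hr
          · rfl
        by_cases hpk : G.comp p = k
        · rw [hsp p hpk, ho, hp]
          simp only [Equiv.symm_apply_apply, if_pos hpk, csymm]
          cases hor : G.isOver (G.succ.symm p)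
          · simp only [Bool.false_eq_true, if_false]
            rw [hov _ (by rw [G.over_partner, hor]; rfl)]
            have := hc2 (G.succ.symm (G.succ.symm p))
            rw [Equiv.apply_symm_apply, hor] at this
            simp only [Bool.false_eq_true, if_false] at this
            rw [this, hop.invol]
          · simp only [if_true]
            exact overc _ hor
        · rw [hsn p hpk, ho, hp]
          simp only [Equiv.symm_apply_apply, if_neg hpk, comp_succ]
          cases hor : G.isOver (G.succ p)
          · simp only [Bool.false_eq_true, if_false]
            rw [hov _ (by rw [G.over_partner, hor]; rfl)]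
            have := hc2 p
            rw [hor] at this
            simpa using this
          · simp only [if_true]
            have := hc2 p
            rw [hor] at this
            simpa using this
    · rintro ⟨c, hc1, hc2⟩
      have overc : ∀ x, G'.isOver x = true → c (G'.succ.symm x) = c x := by
        intro x hx
        have := hc2 (G'.succ.symm x)
        rw [Equiv.apply_symm_apply, if_pos hx] at this
        exact this.symm
      have csymm' : ∀ x, G'.comp (G'.succ.symm x) = G'.comp x := by
        intro x
        have := comp_succ G' (G'.succ.symm x)
        rw [Equiv.apply_symm_apply] at this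
        exact this.symm
      refine ⟨fun p => if G.comp p = k then c (G'.succ.symm (e p)) else c (e p), ?_, ?_⟩
      · intro p
        show _ ∈ t (κ (G.comp p))
        rw [← hc]
        dsimp only
        split_ifs
        · have := hc1 (G'.succ.symm (e p))
          rw [csymm'] at this
          exact this
        · exact hc1 _
      · intro p
        have hov : ∀ r, G.isOver r = true →
            (if G.comp r = k then c (G'.succ.symm (e r)) else c (e r)) = c (e r) := by
          intro r hr
          split_ifs
          · exact overc _ (by rw [ho]; exact hr)
          · rfl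
        by_cases hpk : G.comp p = k
        · have hpk' : G.comp (G.succ p) = k := by rw [comp_succ]; exact hpk
          simp only [if_pos hpk, if_pos hpk']
          have e1 : G'.succ (e (G.succ p)) = e p := by
            rw [hsp _ hpk', Equiv.symm_apply_apply]
          have e2 : G'.succ.symm (e p) = e (G.succ p) := by
            rw [← e1, Equiv.symm_apply_apply]
          rw [e2]
          cases hor : G.isOver (G.succ p)
          · simp only [Bool.false_eq_true, if_false]
            rw [hov _ (by rw [G.over_partner, hor]; rfl)]
            have := hc2 (G'.succ.symm (e (G.succ p)))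
            rw [Equiv.apply_symm_apply, ho, hor, hp] at this
            simp only [Bool.false_eq_true, if_false] at this
            rw [this, hop.invol]
          · simp only [if_true]
            exact overc _ (by rw [ho]; exact hor)
        · have hpk' : G.comp (G.succ p) ≠ k := by rw [comp_succ]; exact hpk
          simp only [if_neg hpk, if_neg hpk']
          have := hc2 (e p)
          rw [hsn p hpk, ho, hp] at this
          rw [this]
          cases hor : G.isOver (G.succ p)
          · simp only [Bool.false_eq_true, if_false]
            rw [hov _ (by rw [G.over_partner, hor]; rfl)]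
          · simp

end Pool.Agent.Work.MP_7250c3_gt
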