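import Pool.Agent.Work.MP_7250c3_gt.Inv2

set_option autoImplicit false

namespace Pool.Agent.Work.MP_7250c3_gt

open Classical

/-- Combinatorial data of a third Reidemeister move (without orientation and sign conditions). -/
structure R3Data (G G' : GaussDiagram) (e : G.P ≃ G'.P) (κ : G.K ≃ G'.K) (π : G.P → G.P)
    (t1 t2 m1 m2 b1 b2 : G.P) : Prop where
  hp : ∀ x, G'.partner (e x) = e (G.partner x)
  ho : ∀ x, G'.isOver (e x) = G.isOver x
  hc : ∀ x, G'.comp (e x) = κ (G.comp x)
  hs : ∀ x, G'.succ (e (π x)) = e (π (G.succ x))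
  st : G.succ t1 = t2
  sm : G.succ m1 = m2
  sb : G.succ b1 = b2
  nd : [t1, t2, m1, m2, b1, b2].Nodup
  πt1 : π t1 = t2
  πt2 : π t2 = t1
  πm1 : π m1 = m2
  πm2 : π m2 = m1
  πb1 : π b1 = b2
  πb2 : π b2 = b1
  πn : ∀ v, v ≠ t1 → v ≠ t2 → v ≠ m1 → v ≠ m2 → v ≠ b1 → v ≠ b2 → π v = v
  ot1 : G.isOver t1 = true
  ot2 : G.isOver t2 = true
  ob1 : G.isOver b1 = false
  ob2 : G.isOver b2 = false
  hT1 : G.partner t1 = m1 ∨ G.partner t1 = m2 ∨ G.partner t1 = b1 ∨ G.partner t1 = b2
  hT2 : G.partner t2 = m1 ∨ G.partner t2 = m2 ∨ G.partner t2 = b1 ∨ G.partner t2 = b2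
  hM : (G.isOver m1 = false ∧ G.isOver m2 = true ∧ (G.partner m1 = t1 ∨ G.partner m1 = t2) ∧
      (G.partner m2 = b1 ∨ G.partner m2 = b2)) ∨
    (G.isOver m1 = true ∧ G.isOver m2 = false ∧ (G.partner m1 = b1 ∨ G.partner m1 = b2) ∧
      (G.partner m2 = t1 ∨ G.partner m2 = t2))
  hB : ((G.partner b1 = t1 ∨ G.partner b1 = t2) ∧ (G.partner b2 = m1 ∨ G.partner b2 = m2)) ∨
    ((G.partner b1 = m1 ∨ G.partner b1 = m2) ∧ (G.partner b2 = t1 ∨ G.partner b2 = t2))

theorem R3Data.forward {G G' : GaussDiagram} {e : G.P ≃ G'.P} {κ : G.K ≃ G'.K} {π : G.P → G.P}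
    {t1 t2 m1 m2 b1 b2 : G.P} (D : R3Data G G' e κ π t1 t2 m1 m2 b1 b2)
    {Q : Type} {op : Q → Q → Q} (hop : IsKei op) (T : G'.K → Set Q)
    (ht : ∀ k k' x y, x ∈ T k → y ∈ T k' → op x y ∈ T k) (c : G.P → Q)
    (hcol : IsCol G op (fun k => T (κ k)) c) : ∃ c', IsCol G' op T c' := by
  obtain ⟨hp, ho, hc, hs, st, sm, sb, nd, πt1, πt2, πm1, πm2, πb1, πb2, πn, ot1, ot2, ob1, ob2,
    hT1, hT2, hM, hB⟩ := D
  obtain ⟨hc1, hc2⟩ := hcol
  simp only [List.nodup_cons, List.mem_cons, List.not_mem_nil, or_false, not_or,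
    List.nodup_nil, and_true, not_false_eq_true] at nd
  obtain ⟨⟨n12, n13, n14, n15, n16⟩, ⟨n23, n24, n25, n26⟩, ⟨n34, n35, n36⟩, ⟨n45, n46⟩, n56⟩ := nd
  -- colours
  have rule : ∀ v, c v = if G.isOver v = true then c (G.succ.symm v)
      else op (c (G.succ.symm v)) (c (G.partner v)) := by
    intro v
    have := hc2 (G.succ.symm v)
    rw [Equiv.apply_symm_apply] at this
    exact this
  set t := c t1 with htdef
  set m := c (G.succ.symm m1) with hmdef
  set b := c (G.succ.symm b1) with hbdef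
  have ct2 : c t2 = t := by
    have := hc2 t1
    rw [st, if_pos ot2] at this
    exact this
  have cpt : c (G.succ.symm t1) = t := by
    have := rule t1
    rw [if_pos ot1] at this
    exact this.symm
  have cm1 := rule m1
  have cm2 := hc2 m1
  rw [sm] at cm2
  have cb1 := rule b1
  have cb2 := hc2 b1
  rw [sb] at cb2
  rw [ob1] at cb1
  rw [ob2] at cb2
  simp only [Bool.false_eq_true, if_false] at cb1 cb2
  rw [← hmdef] at cm1
  rw [← hbdef] at cb1
  -- the new colour of the middle strand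
  set ζ := if G.isOver m2 = true then m else op m t with hζ
  have cm2' : c m2 = op m t := by
    rcases hM with ⟨o1, o2, p1, p2⟩ | ⟨o1, o2, p1, p2⟩
    · rw [if_pos o2, cm1, o1] at cm2
      simp only [Bool.false_eq_true, if_false] at cm2
      rw [cm2]
      rcases p1 with h | h <;> rw [h]
      rw [ct2]
    · rw [cm1, if_pos o1, o2] at cm2
      simp only [Bool.false_eq_true, if_false] at cm2
      rw [cm2]
      rcases p2 with h | h <;> rw [h]
      rw [ct2]
  -- the new colouring
  let d : G.P → Q := fun v =>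
    if v = m1 then op m t else if v = m2 then ζ else if v = b1 then c b2
    else if v = b2 then (if G.partner b2 = t1 ∨ G.partner b2 = t2 then op b t else op b ζ)
    else c v
  have dm1 : d m1 = op m t := if_pos rfl
  have dm2 : d m2 = ζ := (if_neg (Ne.symm n34)).trans (if_pos rfl)
  have db1 : d b1 = c b2 :=
    (if_neg (Ne.symm n35)).trans ((if_neg (Ne.symm n45)).trans (if_pos rfl))
  have db2 : d b2 = if G.partner b2 = t1 ∨ G.partner b2 = t2 then op b t else op b ζ :=
    (if_neg (Ne.symm n36)).trans ((if_neg (Ne.symm n46)).trans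
      ((if_neg (Ne.symm n56)).trans (if_pos rfl)))
  have dn : ∀ v, v ≠ m1 → v ≠ m2 → v ≠ b1 → v ≠ b2 → d v = c v := by
    intro v h1 h2 h3 h4
    simp only [d]
    rw [if_neg h1, if_neg h2, if_neg h3, if_neg h4]
  have dt1 : d t1 = t := dn t1 n13 n14 n15 n16
  have dt2 : d t2 = t := by rw [dn t2 n23 n24 n25 n26, ct2]
  have dT : ∀ v, v = t1 ∨ v = t2 → d v = t := by
    rintro v (rfl | rfl)
    · exact dt1
    · exact dt2
  -- value at the over pass of the middle strand
  have dz : ∀ v, (v = m1 ∨ v = m2) → G.isOver v = true → d v = ζ := by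
    rintro v (rfl | rfl) hv
    · rcases hM with ⟨o1, o2, p1, p2⟩ | ⟨o1, o2, p1, p2⟩
      · rw [hv] at o1; cases o1
      · rw [dm1, hζ, o2]; simp
    · exact dm2
  have cz : ∀ v, (v = m1 ∨ v = m2) → G.isOver v = true →
      (c v = (if G.isOver m2 = true then op m t else m)) := by
    rintro v (rfl | rfl) hv
    · rcases hM with ⟨o1, o2, p1, p2⟩ | ⟨o1, o2, p1, p2⟩
      · rw [hv] at o1; cases o1
      · rw [cm1, if_pos hv, o2]; simp
    · rw [if_pos hv]; exact cm2'
  have opb1 : G.isOver (G.partner b1) = true := by rw [G.over_partner, ob1]; rfl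
  have opb2 : G.isOver (G.partner b2) = true := by rw [G.over_partner, ob2]; rfl
  -- kei identities
  have k1 : ∀ x : Q, op (op x (if G.isOver m2 = true then op m t else m)) t =
      op (op x t) ζ := by
    intro x
    rw [hζ]
    by_cases h : G.isOver m2 = true
    · rw [if_pos h, if_pos h]
      have := hop.dist x (op m t) t
      rw [hop.invol] at this
      exact this
    · rw [if_neg h, if_neg h]
      exact hop.dist x m t
  have k2 : ∀ x : Q, op (op x t) (if G.isOver m2 = true then op m t else m) =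
      op (op x ζ) t := by
    intro x
    rw [hζ]
    by_cases h : G.isOver m2 = true
    · rw [if_pos h, if_pos h]
      exact (hop.dist x m t).symm
    · rw [if_neg h, if_neg h]
      have := hop.dist x (op m t) t
      rw [hop.invol] at this
      exact this.symm
  let R : G.P → Q → Q := fun v X => if G.isOver v = true then X else op X (d (G.partner v))
  -- second elements
  have L2t : R t2 t = d t2 := by simp only [R]; rw [if_pos ot2, dt2]
  have L2m : R m2 m = d m2 := by
    simp only [R]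
    rw [dm2, hζ]
    rcases hM with ⟨o1, o2, p1, p2⟩ | ⟨o1, o2, p1, p2⟩
    · rw [if_pos o2, if_pos o2]
    · rw [o2]; simp only [Bool.false_eq_true, if_false]
      rw [dT _ p2]
  have L2b : R b2 b = d b2 := by
    simp only [R]
    rw [ob2, db2]; simp only [Bool.false_eq_true, if_false]
    rcases hB with ⟨p1, p2⟩ | ⟨p1, p2⟩
    · rw [dz _ p2 opb2, if_neg]
      rintro (h | h)
      · rw [h] at p2
        rcases p2 with h' | h'
        · exact n13 h'
        · exact n14 h'
      · rw [h] at p2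
        rcases p2 with h' | h'
        · exact n23 h'
        · exact n24 h'
    · rw [dT _ p2, if_pos p2]
  -- first elements
  have L3t : R t1 (d t2) = d t1 := by simp only [R]; rw [if_pos ot1, dt1, dt2]
  have L3m : R m1 (d m2) = d m1 := by
    simp only [R]
    rw [dm1, dm2, hζ]
    rcases hM with ⟨o1, o2, p1, p2⟩ | ⟨o1, o2, p1, p2⟩
    · rw [o1, if_pos o2]; simp only [Bool.false_eq_true, if_false]
      rw [dT _ p1]
    · rw [if_pos o1, o2]; simp
  have L3b : R b1 (d b2) = d b1 := by
    simp only [R]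
    rw [ob1, db1, cb2, cb1, db2]; simp only [Bool.false_eq_true, if_false]
    rcases hB with ⟨p1, p2⟩ | ⟨p1, p2⟩
    · have hnt : ¬ (G.partner b2 = t1 ∨ G.partner b2 = t2) := by
        rintro (h | h)
        · rw [h] at p2
          rcases p2 with h' | h'
          · exact n13 h'
          · exact n14 h'
        · rw [h] at p2
          rcases p2 with h' | h'
          · exact n23 h'
          · exact n24 h'
      rw [if_neg hnt, dT _ p1, cz _ p2 opb2]
      have : c (G.partner b1) = t := by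
        rcases p1 with h | h <;> rw [h]
        exact ct2
      rw [this, k2]
    · rw [if_pos p2, dz _ p1 opb1, cz _ p1 opb1]
      have : c (G.partner b2) = t := by
        rcases p2 with h | h <;> rw [h]
        exact ct2
      rw [this, k1]
  -- closure of the six passes under `partner`
  have clos : ∀ v, v ≠ t1 → v ≠ t2 → v ≠ m1 → v ≠ m2 → v ≠ b1 → v ≠ b2 →
      d (G.partner v) = c (G.partner v) := by
    intro v h1 h2 h3 h4 h5 h6
    have inv : ∀ u, G.partner v = u → G.partner u = v := by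
      intro u h; rw [← h, G.partner_partner]
    apply dn
    · intro h
      have := inv _ h
      rcases hM with ⟨o1, o2, p1, p2⟩ | ⟨o1, o2, p1, p2⟩
      · rw [this] at p1; rcases p1 with h | h
        · exact h1 h
        · exact h2 h
      · rw [this] at p1; rcases p1 with h | h
        · exact h5 h
        · exact h6 h
    · intro h
      have := inv _ h
      rcases hM with ⟨o1, o2, p1, p2⟩ | ⟨o1, o2, p1, p2⟩
      · rw [this] at p2; rcases p2 with h | h
        · exact h5 h
        · exact h6 h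
      · rw [this] at p2; rcases p2 with h | h
        · exact h1 h
        · exact h2 h
    · intro h
      have := inv _ h
      rcases hB with ⟨p1, p2⟩ | ⟨p1, p2⟩
      · rw [this] at p1; rcases p1 with h | h
        · exact h1 h
        · exact h2 h
      · rw [this] at p1; rcases p1 with h | h
        · exact h3 h
        · exact h4 h
    · intro h
      have := inv _ h
      rcases hB with ⟨p1, p2⟩ | ⟨p1, p2⟩
      · rw [this] at p2; rcases p2 with h | h
        · exact h3 h
        · exact h4 h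
      · rw [this] at p2; rcases p2 with h | h
        · exact h1 h
        · exact h2 h
  have L1 : ∀ w, w ≠ t1 → w ≠ m1 → w ≠ b1 → d (π w) = c w := by
    intro w h1 h3 h5
    by_cases h2 : w = t2
    · rw [h2, πt2, dt1, ct2]
    by_cases h4 : w = m2
    · rw [h4, πm2, dm1, cm2']
    by_cases h6 : w = b2
    · rw [h6, πb2, db1]
    rw [πn w h1 h2 h3 h4 h5 h6, dn w h3 h4 h5 h6]
  have main : ∀ w, d (π (G.succ w)) = R (π (G.succ w)) (d (π w)) := by
    intro w
    by_cases h1 : w = t1
    · rw [h1, st, πt1, πt2, L3t]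
    by_cases h3 : w = m1
    · rw [h3, sm, πm1, πm2, L3m]
    by_cases h5 : w = b1
    · rw [h5, sb, πb1, πb2, L3b]
    rw [L1 w h1 h3 h5]
    have hw : ∀ v, G.succ w = v → w = G.succ.symm v := by
      intro v h; rw [← h, Equiv.symm_apply_apply]
    by_cases g1 : G.succ w = t1
    · rw [g1, πt1, hw _ g1, cpt, L2t]
    by_cases g3 : G.succ w = m1
    · rw [g3, πm1, hw _ g3, ← hmdef, L2m]
    by_cases g5 : G.succ w = b1
    · rw [g5, πb1, hw _ g5, ← hbdef, L2b]
    have g2 : G.succ w ≠ t2 := by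
      intro h; rw [← st] at h; exact h1 (G.succ.injective h)
    have g4 : G.succ w ≠ m2 := by
      intro h; rw [← sm] at h; exact h3 (G.succ.injective h)
    have g6 : G.succ w ≠ b2 := by
      intro h; rw [← sb] at h; exact h5 (G.succ.injective h)
    rw [πn _ g1 g2 g3 g4 g5 g6, dn _ g3 g4 g5 g6, hc2 w]
    simp only [R]
    rw [clos _ g1 g2 g3 g4 g5 g6]
  have ππ : ∀ w, π (π w) = w := by
    intro w
    by_cases h1 : w = t1
    · rw [h1, πt1, πt2]
    by_cases h2 : w = t2
    · rw [h2, πt2, πt1]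
    by_cases h3 : w = m1
    · rw [h3, πm1, πm2]
    by_cases h4 : w = m2
    · rw [h4, πm2, πm1]
    by_cases h5 : w = b1
    · rw [h5, πb1, πb2]
    by_cases h6 : w = b2
    · rw [h6, πb2, πb1]
    rw [πn w h1 h2 h3 h4 h5 h6, πn w h1 h2 h3 h4 h5 h6]
  have cpred : ∀ v, G.comp (G.succ.symm v) = G.comp v := by
    intro v
    have := comp_succ G (G.succ.symm v)
    rw [Equiv.apply_symm_apply] at this
    exact this.symm
  have htm : m ∈ T (κ (G.comp m1)) := by
    have := hc1 (G.succ.symm m1)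
    rw [cpred] at this; exact this
  have htb : b ∈ T (κ (G.comp b1)) := by
    have := hc1 (G.succ.symm b1)
    rw [cpred] at this; exact this
  have htt : t ∈ T (κ (G.comp t1)) := hc1 t1
  have htζ : ζ ∈ T (κ (G.comp m1)) := by
    rw [hζ]
    split_ifs
    · exact htm
    · exact ht _ _ _ _ htm htt
  have cm : G.comp m2 = G.comp m1 := by rw [← sm, comp_succ]
  have cb : G.comp b2 = G.comp b1 := by rw [← sb, comp_succ]
  refine ⟨fun q => d (e.symm q), ?_, ?_⟩
  · intro q
    obtain ⟨v, rfl⟩ := e.surjective q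
    rw [hc]; simp only [Equiv.symm_apply_apply]
    by_cases h3 : v = m1
    · rw [h3, dm1]; exact ht _ _ _ _ htm htt
    by_cases h4 : v = m2
    · rw [h4, dm2, cm]
      exact htζ
    by_cases h5 : v = b1
    · rw [h5, db1, ← cb]; exact hc1 b2
    by_cases h6 : v = b2
    · rw [h6, db2, cb]
      split_ifs
      · exact ht _ _ _ _ htb htt
      · exact ht _ _ _ _ htb htζ
    rw [dn v h3 h4 h5 h6]; exact hc1 v
  · intro q
    obtain ⟨v, rfl⟩ := e.surjective q
    have e1 : v = π (π v) := (ππ v).symm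
    rw [e1, hs, hp, ho]
    simp only [Equiv.symm_apply_apply]
    exact main (π v)

theorem R3Data.symm {G G' : GaussDiagram} {e : G.P ≃ G'.P} {κ : G.K ≃ G'.K} {π : G.P → G.P}
    {t1 t2 m1 m2 b1 b2 : G.P} (D : R3Data G G' e κ π t1 t2 m1 m2 b1 b2) :
    R3Data G' G e.symm κ.symm (fun q => e (π (e.symm q))) (e t2) (e t1) (e m2) (e m1)
      (e b2) (e b1) := by
  obtain ⟨hp, ho, hc, hs, st, sm, sb, nd, πt1, πt2, πm1, πm2, πb1, πb2, πn, ot1, ot2, ob1, ob2,
    hT1, hT2, hM, hB⟩ := D
  have ππ : ∀ w, π (π w) = w := by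
    intro w
    by_cases h1 : w = t1
    · rw [h1, πt1, πt2]
    by_cases h2 : w = t2
    · rw [h2, πt2, πt1]
    by_cases h3 : w = m1
    · rw [h3, πm1, πm2]
    by_cases h4 : w = m2
    · rw [h4, πm2, πm1]
    by_cases h5 : w = b1
    · rw [h5, πb1, πb2]
    by_cases h6 : w = b2
    · rw [h6, πb2, πb1]
    rw [πn w h1 h2 h3 h4 h5 h6, πn w h1 h2 h3 h4 h5 h6]
  refine ⟨?_, ?_, ?_, ?_, ?_, ?_, ?_, ?_, ?_, ?_, ?_, ?_, ?_, ?_, ?_, ?_, ?_, ?_, ?_, ?_, ?_, ?_,
    ?_⟩
  · intro x
    obtain ⟨v, rfl⟩ := e.surjective x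
    rw [hp]; simp
  · intro x
    obtain ⟨v, rfl⟩ := e.surjective x
    rw [ho]; simp
  · intro x
    obtain ⟨v, rfl⟩ := e.surjective x
    rw [hc]; simp
  · intro x
    obtain ⟨v, rfl⟩ := e.surjective x
    have h := hs (π v)
    rw [ππ] at h
    simp only [Equiv.symm_apply_apply]
    rw [h]
    simp only [Equiv.symm_apply_apply, ππ]
  · have := hs t1; rw [πt1, st, πt2] at this; exact this
  · have := hs m1; rw [πm1, sm, πm2] at this; exact this
  · have := hs b1; rw [πb1, sb, πb2] at this; exact this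
  · simp only [List.nodup_cons, List.mem_cons, List.not_mem_nil, or_false, not_or,
      List.nodup_nil, and_true, not_false_eq_true, EmbeddingLike.apply_eq_iff_eq] at nd ⊢
    obtain ⟨⟨n12, n13, n14, n15, n16⟩, ⟨n23, n24, n25, n26⟩, ⟨n34, n35, n36⟩, ⟨n45, n46⟩, n56⟩ := nd
    exact ⟨⟨Ne.symm n12, n24, n23, n26, n25⟩, ⟨n14, n13, n16, n15⟩, ⟨Ne.symm n34, n46, n45⟩,
      ⟨n36, n35⟩, Ne.symm n56⟩
  · simp [πt2]
  · simp [πt1]
  · simp [πm2]
  · simp [πm1]
  · simp [πb2]
  · simp [πb1]
  · intro x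
    obtain ⟨v, rfl⟩ := e.surjective x
    simp only [ne_eq, EmbeddingLike.apply_eq_iff_eq, Equiv.symm_apply_apply]
    intro h2 h1 h4 h3 h6 h5
    exact πn v h1 h2 h3 h4 h5 h6
  · rw [ho]; exact ot2
  · rw [ho]; exact ot1
  · rw [ho]; exact ob2
  · rw [ho]; exact ob1
  · simp only [hp, EmbeddingLike.apply_eq_iff_eq]
    rcases hT2 with h | h | h | h
    · exact Or.inr (Or.inl h)
    · exact Or.inl h
    · exact Or.inr (Or.inr (Or.inr h))
    · exact Or.inr (Or.inr (Or.inl h))
  · simp only [hp, EmbeddingLike.apply_eq_iff_eq]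
    rcases hT1 with h | h | h | h
    · exact Or.inr (Or.inl h)
    · exact Or.inl h
    · exact Or.inr (Or.inr (Or.inr h))
    · exact Or.inr (Or.inr (Or.inl h))
  · simp only [hp, ho, EmbeddingLike.apply_eq_iff_eq]
    rcases hM with ⟨o1, o2, p1, p2⟩ | ⟨o1, o2, p1, p2⟩
    · right; exact ⟨o2, o1, p2.symm, p1.symm⟩
    · left; exact ⟨o2, o1, p2.symm, p1.symm⟩
  · simp only [hp, EmbeddingLike.apply_eq_iff_eq]
    rcases hB with ⟨p1, p2⟩ | ⟨p1, p2⟩
    · right; exact ⟨p2.symm, p1.symm⟩
    · left; exact ⟨p2.symm, p1.symm⟩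

theorem face_step (G : GaussDiagram) {p q : G.P} {a b : Bool}
    (h : G.faceNext (p, a) = (q, b)) :
    G.partner (if a = true then G.succ p else p) = (if b = true then q else G.succ q) := by
  simp only [GaussDiagram.faceNext] at h
  split_ifs at h with h1 h2 h3 h4 <;> simp only [Prod.mk.injEq] at h <;>
    obtain ⟨h5, h6⟩ := h <;> subst h6 <;> simp_all <;> (try (rw [← h5]; simp))

end Pool.Agent.Work.MP_7250c3_gt
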