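import Pool.Agent.Work.MP_7250c3_gt.Inv3

set_option autoImplicit false

namespace Pool.Agent.Work.MP_7250c3_gt

open Classical

theorem Same.R3 {G G' : GaussDiagram} (h : R3 G G') : Same G G' := by
  obtain ⟨p, q, r, a, b, c, e, κ, nd, otp, otp', hq, obr, obr', hface, hp, ho, _, hc, hs⟩ := h
  have := G'.finP
  have inv : ∀ {u v : G.P}, G.partner u = v → G.partner v = u := by
    intro u v h; rw [← h, G.partner_partner]
  have ov' : ∀ {u v : G.P}, G.partner u = v → G.isOver v = !G.isOver u := by
    intro u v h; rw [← h, G.over_partner]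
  have nd' := nd
  simp only [List.nodup_cons, List.mem_cons, List.not_mem_nil, or_false, not_or,
    List.nodup_nil, and_true, not_false_eq_true] at nd'
  obtain ⟨⟨n12, n13, n14, n15, n16⟩, ⟨n23, n24, n25, n26⟩, ⟨n34, n35, n36⟩, ⟨n45, n46⟩, n56⟩ := nd'
  set π : Equiv.Perm G.P := Equiv.swap p (G.succ p) * Equiv.swap q (G.succ q) *
        Equiv.swap r (G.succ r) with hπ
  have D : R3Data G G' e κ π p (G.succ p) q (G.succ q) r (G.succ r) := by
    have hM : (G.isOver q = false ∧ G.isOver (G.succ q) = true ∧
          (G.partner q = p ∨ G.partner q = G.succ p) ∧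
          (G.partner (G.succ q) = r ∨ G.partner (G.succ q) = G.succ r)) ∨
        (G.isOver q = true ∧ G.isOver (G.succ q) = false ∧
          (G.partner q = r ∨ G.partner q = G.succ r) ∧
          (G.partner (G.succ q) = p ∨ G.partner (G.succ q) = G.succ p)) := by
      rcases hface with ⟨f1, f2, f3⟩ | ⟨f1, f2, f3⟩ <;>
        (have g1 := face_step G f1
         have g2 := face_step G f2
         have g3 := face_step G f3
         cases a <;> cases b <;> cases c <;>
           simp only [Bool.false_eq_true, if_true, if_false] at g1 g2 g3 <;>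
           (have i1 := inv g1
            have i2 := inv g2
            have i3 := inv g3
            have j1 := ov' g1
            have j2 := ov' g2
            have j3 := ov' g3
            simp_all))
    have hB : ((G.partner r = p ∨ G.partner r = G.succ p) ∧
          (G.partner (G.succ r) = q ∨ G.partner (G.succ r) = G.succ q)) ∨
        ((G.partner r = q ∨ G.partner r = G.succ q) ∧
          (G.partner (G.succ r) = p ∨ G.partner (G.succ r) = G.succ p)) := by
      rcases hface with ⟨f1, f2, f3⟩ | ⟨f1, f2, f3⟩ <;>
        (have g1 := face_step G f1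
         have g2 := face_step G f2
         have g3 := face_step G f3
         cases a <;> cases b <;> cases c <;>
           simp only [Bool.false_eq_true, if_true, if_false] at g1 g2 g3 <;>
           (have i1 := inv g1
            have i2 := inv g2
            have i3 := inv g3
            clear hM hs nd hc ho hp hπ
            simp_all))
    have hT : (G.partner p = q ∨ G.partner p = G.succ q ∨ G.partner p = r ∨
          G.partner p = G.succ r) ∧
        (G.partner (G.succ p) = q ∨ G.partner (G.succ p) = G.succ q ∨ G.partner (G.succ p) = r ∨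
          G.partner (G.succ p) = G.succ r) := by
      rcases hface with ⟨f1, f2, f3⟩ | ⟨f1, f2, f3⟩ <;>
        (have g1 := face_step G f1
         have g2 := face_step G f2
         have g3 := face_step G f3
         cases a <;> cases b <;> cases c <;>
           simp only [Bool.false_eq_true, if_true, if_false] at g1 g2 g3 <;>
           (have i1 := inv g1
            have i2 := inv g2
            have i3 := inv g3
            clear hM hB hs nd hc ho hp hπ
            simp_all))
    refine ⟨hp, ho, hc, hs, rfl, rfl, rfl, nd, ?_, ?_, ?_, ?_, ?_, ?_, ?_, otp, otp', obr, obr',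
      hT.1, hT.2, hM, hB⟩
    · rw [hπ, Equiv.Perm.mul_apply, Equiv.Perm.mul_apply, Equiv.swap_apply_of_ne_of_ne n15 n16,
        Equiv.swap_apply_of_ne_of_ne n13 n14, Equiv.swap_apply_left]
    · rw [hπ, Equiv.Perm.mul_apply, Equiv.Perm.mul_apply, Equiv.swap_apply_of_ne_of_ne n25 n26,
        Equiv.swap_apply_of_ne_of_ne n23 n24, Equiv.swap_apply_right]
    · rw [hπ, Equiv.Perm.mul_apply, Equiv.Perm.mul_apply, Equiv.swap_apply_of_ne_of_ne n35 n36,
        Equiv.swap_apply_left, Equiv.swap_apply_of_ne_of_ne (Ne.symm n14) (Ne.symm n24)]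
    · rw [hπ, Equiv.Perm.mul_apply, Equiv.Perm.mul_apply, Equiv.swap_apply_of_ne_of_ne n45 n46,
        Equiv.swap_apply_right, Equiv.swap_apply_of_ne_of_ne (Ne.symm n13) (Ne.symm n23)]
    · rw [hπ, Equiv.Perm.mul_apply, Equiv.Perm.mul_apply, Equiv.swap_apply_left,
        Equiv.swap_apply_of_ne_of_ne (Ne.symm n36) (Ne.symm n46),
        Equiv.swap_apply_of_ne_of_ne (Ne.symm n16) (Ne.symm n26)]
    · rw [hπ, Equiv.Perm.mul_apply, Equiv.Perm.mul_apply, Equiv.swap_apply_right,
        Equiv.swap_apply_of_ne_of_ne (Ne.symm n35) (Ne.symm n45),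
        Equiv.swap_apply_of_ne_of_ne (Ne.symm n15) (Ne.symm n25)]
    · intro v h1 h2 h3 h4 h5 h6
      rw [hπ, Equiv.Perm.mul_apply, Equiv.Perm.mul_apply, Equiv.swap_apply_of_ne_of_ne h5 h6,
        Equiv.swap_apply_of_ne_of_ne h3 h4, Equiv.swap_apply_of_ne_of_ne h1 h2]
  refine ⟨κ, ?_, ?_⟩
  · intro i j _
    have : ov G' (κ i) (κ j) = ov G i j := by
      unfold ov
      have : {p : G'.P | G'.isOver p = true ∧ G'.comp p = κ i ∧ G'.comp (G'.partner p) = κ j} =
          e '' {p : G.P | G.isOver p = true ∧ G.comp p = i ∧ G.comp (G.partner p) = j} := by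
        ext q
        obtain ⟨p, rfl⟩ := e.surjective q
        simp only [Set.mem_image, EmbeddingLike.apply_eq_iff_eq, exists_eq_right]
        show _ ∧ _ ∧ _ ↔ _ ∧ _ ∧ _
        rw [ho, hp, hc, hc]
        simp
      rw [this, Set.ncard_image_of_injective _ e.injective]
    rw [this]
  · intro Q op hop t ht hne
    constructor
    · rintro ⟨c, hc⟩
      exact D.forward hop t ht c hc
    · rintro ⟨c, hc⟩
      refine D.symm.forward hop (fun k => t (κ k)) (fun k k' x y h h' => ht _ _ x y h h') c ?_
      simpa using hc

/-- The invariants agree for diagrams of the same link. -/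
theorem SameLink.same {D E : LinkDiagram} (h : SameLink D E) : Same D.toGauss E.toGauss := by
  induction h with
  | rel D E h =>
    rcases h with h | h | h | h | h
    · exact Same.iso h
    · exact Same.reorient h
    · exact Same.R1 h
    · exact Same.R2 h
    · exact Same.R3 h
  | refl => exact Same.refl _
  | symm _ _ _ ih => exact ih.symm
  | trans _ _ _ _ _ ih1 ih2 => exact ih1.trans ih2

end Pool.Agent.Work.MP_7250c3_gt
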