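import Pool.Agent.Work.MP_7250c3_gt.Inv4

set_option autoImplicit false

namespace Pool.Agent.Work.MP_7250c3_gt

open Classical

/-- Fox-type operation with coefficients; elements of type `0` act trivially. -/
def lamOp (l : Fin 3 → Fin 3 → ZMod 16) (x y : Fin 3 × ZMod 16) : Fin 3 × ZMod 16 :=
  if x.1 = 0 ∨ y.1 = 0 then x else (x.1, l x.1 y.1 * y.2 - x.2)

theorem lamOp_isKei (l : Fin 3 → Fin 3 → ZMod 16)
    (h1 : ∀ i, i ≠ 0 → l i i = 2)
    (h2 : ∀ i j k, i ≠ 0 → j ≠ 0 → k ≠ 0 → 2 * l i k = l i j * l j k) : IsKei (lamOp l) := by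
  constructor
  · rintro ⟨i, x⟩
    by_cases hi : i = 0
    · simp [lamOp, hi]
    · simp only [lamOp, hi, or_self, if_false, h1 i hi]
      ext <;> simp
      ring
  · rintro ⟨i, x⟩ ⟨j, y⟩
    by_cases hi : i = 0
    · simp [lamOp, hi]
    · by_cases hj : j = 0
      · simp [lamOp, hj]
      · simp [lamOp, hi, hj]
  · rintro ⟨i, x⟩ ⟨j, y⟩ ⟨k, z⟩
    by_cases hi : i = 0
    · simp [lamOp, hi]
    · by_cases hj : j = 0
      · simp [lamOp, hj]
      · by_cases hk : k = 0
        · simp [lamOp, hk]
        · simp only [lamOp, hi, hj, hk, or_self, if_false]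
          ext
          · rfl
          · simp only
            have := h2 i j k hi hj hk
            linear_combination z * this

/-- Coefficients of the untwisted colouring. -/
def la : Fin 3 → Fin 3 → ZMod 16 := fun _ _ => 2

/-- Coefficients of the twisted colouring: type `1` is lifted. -/
def lb : Fin 3 → Fin 3 → ZMod 16 := fun i j => if i = j then 2 else if i = 1 then 1 else 4

theorem la_kei : IsKei (lamOp la) := lamOp_isKei la (fun _ _ => rfl) (fun _ _ _ _ _ _ => by
  simp [la])

theorem lb_kei : IsKei (lamOp lb) := lamOp_isKei lb (by decide) (by decide)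

/-- Types of the colours of the components. -/
noncomputable def colT (G : GaussDiagram) (k j : G.K) (A B : Set (ZMod 16)) :
    G.K → Set (Fin 3 × ZMod 16) := fun i =>
  if i = k then {x | x.1 = 1 ∧ x.2 ∈ A} else if i = j then {x | x.1 = 2 ∧ x.2 ∈ B} else {(0, 0)}

/-- `{x | m x = a}`. -/
def S (m a : ZMod 16) : Set (ZMod 16) := {x | m * x = a}

/-- A colouring in terms of second coordinates. -/
structure XCol (G : GaussDiagram) (k j : G.K) (a b : ZMod 16) (x : G.P → ZMod 16) : Prop where
  hk : ∀ v, G.comp v = k → 4 * x v = a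
  hj : ∀ v, G.comp v = j → 4 * x v = b
  act : ∀ v, (G.comp v = k ∨ G.comp v = j) → G.isOver v = false →
    (G.comp (G.partner v) = k ∨ G.comp (G.partner v) = j) →
    x v = 2 * x (G.partner v) - x (G.succ.symm v)
  nact : ∀ v, (G.comp v = k ∨ G.comp v = j) →
    ¬ (G.isOver v = false ∧ (G.comp (G.partner v) = k ∨ G.comp (G.partner v) = j)) →
    x v = x (G.succ.symm v)

theorem XCol.symm {G : GaussDiagram} {k j : G.K} {a b : ZMod 16} {x : G.P → ZMod 16}
    (h : XCol G k j a b x) : XCol G j k b a x :=
  ⟨h.hj, h.hk, fun v h1 h2 h3 => h.act v h1.symm h2 h3.symm,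
    fun v h1 h2 => h.nact v h1.symm (fun h' => h2 ⟨h'.1, h'.2.symm⟩)⟩

theorem cpred (G : GaussDiagram) (v : G.P) : G.comp (G.succ.symm v) = G.comp v := by
  have := comp_succ G (G.succ.symm v)
  rw [Equiv.apply_symm_apply] at this
  exact this.symm

theorem xcol_of_col {G : GaussDiagram} {k j : G.K} (hkj : k ≠ j) {a b : ZMod 16}
    {c : G.P → Fin 3 × ZMod 16} (hc : IsCol G (lamOp la) (colT G k j (S 4 a) (S 4 b)) c) :
    XCol G k j a b (fun v => (c v).2) := by
  obtain ⟨h1, h2⟩ := hc
  have hk : ∀ v, G.comp v = k → (c v).1 = 1 ∧ 4 * (c v).2 = a := by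
    intro v hv
    have := h1 v
    rw [hv] at this
    simpa [colT, S] using this
  have hj : ∀ v, G.comp v = j → (c v).1 = 2 ∧ 4 * (c v).2 = b := by
    intro v hv
    have := h1 v
    rw [hv] at this
    simpa [colT, S, hkj.symm] using this
  have hn : ∀ v, G.comp v ≠ k → G.comp v ≠ j → c v = (0, 0) := by
    intro v hv hv'
    have := h1 v
    simpa [colT, hv, hv'] using this
  have rule : ∀ v, c v = if G.isOver v = true then c (G.succ.symm v)
      else lamOp la (c (G.succ.symm v)) (c (G.partner v)) := by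
    intro v
    have := h2 (G.succ.symm v)
    rw [Equiv.apply_symm_apply] at this
    exact this
  have hkj1 : ∀ v, (G.comp v = k ∨ G.comp v = j) → (c v).1 ≠ 0 := by
    rintro v (h | h)
    · rw [(hk v h).1]; decide
    · rw [(hj v h).1]; decide
  refine ⟨fun v hv => (hk v hv).2, fun v hv => (hj v hv).2, ?_, ?_⟩
  · intro v hv ho hp
    have hr := rule v
    rw [ho] at hr
    simp only [Bool.false_eq_true, if_false] at hr
    have hv' : (c (G.succ.symm v)).1 ≠ 0 := hkj1 _ (by rw [cpred]; exact hv)
    simp only [hr, lamOp, hv', hkj1 _ hp, or_self, if_false, la]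
  · intro v hv hna
    have hr := rule v
    by_cases ho : G.isOver v = true
    · rw [if_pos ho] at hr
      simp only [hr]
    · rw [if_neg ho] at hr
      have ho' : G.isOver v = false := by simpa using ho
      have hp : ¬ (G.comp (G.partner v) = k ∨ G.comp (G.partner v) = j) := fun h => hna ⟨ho', h⟩
      push Not at hp
      rw [hn _ hp.1 hp.2] at hr
      simp only [hr, lamOp, or_true, if_true]

/-- Lifting the colours of the component `k`. -/
theorem lift_col {G : GaussDiagram} {k j : G.K} (hkj : k ≠ j) {a b : ZMod 16}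
    {x : G.P → ZMod 16} (hx : XCol G k j a b x) (g : ZMod 16 → ZMod 16)
    (hg : ∀ v, G.comp v = k → 2 * g (x v) = x v)
    (hg1 : ∀ v, G.comp v = k → G.isOver v = false → G.comp (G.partner v) = k →
      g (x v) = 2 * g (x (G.partner v)) - g (x (G.succ.symm v)))
    (hg2 : ∀ v, G.comp v = k → G.isOver v = false → G.comp (G.partner v) = j →
      g (x v) = x (G.partner v) - g (x (G.succ.symm v))) :
    ∃ c, IsCol G (lamOp lb) (colT G k j (S 8 a) (S 4 b)) c := by
  let c : G.P → Fin 3 × ZMod 16 := fun v =>
    if G.comp v = k then (1, g (x v)) else if G.comp v = j then (2, x v) else (0, 0)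
  have ck : ∀ v, G.comp v = k → c v = (1, g (x v)) := fun v h => if_pos h
  have cj : ∀ v, G.comp v = j → c v = (2, x v) := fun v h => by
    simp only [c]; rw [if_neg (by rw [h]; exact hkj.symm), if_pos h]
  have cn : ∀ v, G.comp v ≠ k → G.comp v ≠ j → c v = (0, 0) := fun v h h' => by
    simp only [c]; rw [if_neg h, if_neg h']
  refine ⟨c, ?_, ?_⟩
  · intro v
    by_cases h : G.comp v = k
    · rw [ck v h, h]
      have h8 : (8 : ZMod 16) * g (x v) = a := by
        have := hx.hk v h
        have h2 := hg v h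
        linear_combination this + 4 * h2
      simp [colT, S, h8]
    · by_cases h' : G.comp v = j
      · rw [cj v h', h']
        simp [colT, S, hkj.symm, hx.hj v h']
      · rw [cn v h h']
        simp [colT, h, h']
  · intro p
    set v := G.succ p with hv
    have hp : p = G.succ.symm v := by rw [hv, Equiv.symm_apply_apply]
    rw [hp]
    have hcp : G.comp (G.succ.symm v) = G.comp v := cpred G v
    by_cases hk : G.comp v = k
    · rw [ck v hk, ck _ (by rw [hcp]; exact hk)]
      by_cases ho : G.isOver v = true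
      · rw [if_pos ho, hx.nact v (Or.inl hk) (by rw [ho]; simp)]
      · rw [if_neg ho]
        have ho' : G.isOver v = false := by simpa using ho
        by_cases h1 : G.comp (G.partner v) = k
        · rw [ck _ h1, hg1 v hk ho' h1]
          simp [lamOp, lb]
        · by_cases h2 : G.comp (G.partner v) = j
          · rw [cj _ h2, hg2 v hk ho' h2]
            simp [lamOp, lb]
          · rw [cn _ h1 h2, hx.nact v (Or.inl hk) (by rintro ⟨_, h | h⟩ <;> contradiction)]
            simp [lamOp]
    · by_cases hj : G.comp v = j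
      · rw [cj v hj, cj _ (by rw [hcp]; exact hj)]
        by_cases ho : G.isOver v = true
        · rw [if_pos ho, hx.nact v (Or.inr hj) (by rw [ho]; simp)]
        · rw [if_neg ho]
          have ho' : G.isOver v = false := by simpa using ho
          by_cases h1 : G.comp (G.partner v) = k
          · rw [ck _ h1]
            have e := hx.act v (Or.inr hj) ho' (Or.inl h1)
            have e2 := hg _ h1
            simp only [lamOp, lb]
            rw [if_neg (by decide), if_neg (by decide), if_neg (by decide)]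
            ext
            · rfl
            · simp only
              rw [e]
              linear_combination (-2 : ZMod 16) * e2
          · by_cases h2 : G.comp (G.partner v) = j
            · rw [cj _ h2, hx.act v (Or.inr hj) ho' (Or.inr h2)]
              simp [lamOp, lb]
            · rw [cn _ h1 h2, hx.nact v (Or.inr hj) (by rintro ⟨_, h | h⟩ <;> contradiction)]
              simp [lamOp]
      · rw [cn v hk hj, cn _ (by rw [hcp]; exact hk) (by rw [hcp]; exact hj)]
        by_cases ho : G.isOver v = true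
        · rw [if_pos ho]
        · rw [if_neg ho]; simp [lamOp]

/-- Halving. -/
def hf (x : ZMod 16) : ZMod 16 := ((x.val / 2 : ℕ) : ZMod 16)

theorem two_hf {x a : ZMod 16} (ha : 2 * a = 0) (h : 4 * x = a) : 2 * hf x = x := by
  have key : ∀ x : ZMod 16, 2 * (4 * x) = 0 → 2 * hf x = x := by decide
  exact key x (by rw [h, ha])

/-- Induction along a component. -/
theorem comp_induction (G : GaussDiagram) {k : G.K} (P : G.P → Prop) {v0 : G.P}
    (h0 : G.comp v0 = k) (hP0 : P v0)
    (hstep : ∀ v, G.comp v = k → P (G.succ.symm v) → P v) :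
    ∀ v, G.comp v = k → P v := by
  have := G.finP
  intro v hv
  have hsc : G.succ.SameCycle v0 v := (G.comp_eq_iff v0 v).mp (by rw [h0, hv])
  obtain ⟨n, hn⟩ := hsc.exists_nat_pow_eq
  have : ∀ n : ℕ, G.comp ((G.succ ^ n) v0) = k ∧ P ((G.succ ^ n) v0) := by
    intro n
    induction n with
    | zero => exact ⟨h0, hP0⟩
    | succ n ih =>
      have e : (G.succ ^ (n + 1)) v0 = G.succ ((G.succ ^ n) v0) := by rw [pow_succ']; rfl
      have hc : G.comp ((G.succ ^ (n + 1)) v0) = k := by rw [e, comp_succ]; exact ih.1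
      refine ⟨hc, hstep _ hc ?_⟩
      rw [e, Equiv.symm_apply_apply]
      exact ih.2
  rw [← hn]
  exact (this n).2

/-- If `k` never passes under `j`, its colours are constant and can be lifted. -/
theorem lift_of_never_under {G : GaussDiagram} {k j : G.K} (hkj : k ≠ j) {a b : ZMod 16}
    (ha : 2 * a = 0) {x : G.P → ZMod 16} (hx : XCol G k j a b x)
    (hnever : ∀ v, G.comp v = k → G.isOver v = false → G.comp (G.partner v) ≠ j) :
    ∃ c, IsCol G (lamOp lb) (colT G k j (S 8 a) (S 4 b)) c := by
  have step1 : ∀ v, G.comp v = k → 2 * x v = 2 * x (G.succ.symm v) := by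
    intro v hv
    by_cases h : G.isOver v = false ∧ (G.comp (G.partner v) = k ∨ G.comp (G.partner v) = j)
    · rw [hx.act v (Or.inl hv) h.1 h.2]
      have hpk : G.comp (G.partner v) = k := h.2.resolve_right (hnever v hv h.1)
      have e1 := hx.hk _ hpk
      have e2 := hx.hk (G.succ.symm v) (by rw [cpred]; exact hv)
      linear_combination e1 - e2
    · rw [hx.nact v (Or.inl hv) h]
  have all2 : ∀ v w, G.comp v = k → G.comp w = k → 2 * x v = 2 * x w := by
    intro v w hv hw
    refine comp_induction G (fun u => 2 * x u = 2 * x w) hw rfl ?_ v hv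
    intro u hu ih
    show 2 * x u = 2 * x w
    rw [step1 u hu]; exact ih
  have step2 : ∀ v, G.comp v = k → x v = x (G.succ.symm v) := by
    intro v hv
    by_cases h : G.isOver v = false ∧ (G.comp (G.partner v) = k ∨ G.comp (G.partner v) = j)
    · rw [hx.act v (Or.inl hv) h.1 h.2]
      have hpk : G.comp (G.partner v) = k := h.2.resolve_right (hnever v hv h.1)
      have e1 := all2 _ (G.succ.symm v) hpk (by rw [cpred]; exact hv)
      linear_combination e1
    · exact hx.nact v (Or.inl hv) h
  have all1 : ∀ v w, G.comp v = k → G.comp w = k → x v = x w := by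
    intro v w hv hw
    refine comp_induction G (fun u => x u = x w) hw rfl ?_ v hv
    intro u hu ih
    show x u = x w
    rw [step2 u hu]; exact ih
  refine lift_col hkj hx hf (fun v hv => two_hf ha (hx.hk v hv)) ?_ ?_
  · intro v hv ho hp
    rw [all1 _ v hp hv, all1 (G.succ.symm v) v (by rw [cpred]; exact hv) hv]
    ring
  · intro v hv ho hp
    exact (hnever v hv ho hp).elim

/-- The case where `k` passes exactly twice under `j` and never under itself. -/
theorem two_under {G : GaussDiagram} {k j : G.K} (hkj : k ≠ j) {a b : ZMod 16}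
    (ha : 2 * a = 0) (hab : a ≠ b) {x : G.P → ZMod 16} (hx : XCol G k j a b x)
    (hno : ¬ ∃ c, IsCol G (lamOp lb) (colT G k j (S 8 a) (S 4 b)) c)
    (v1 v2 : G.P) (c1 : G.comp v1 = k) (c2 : G.comp v2 = k)
    (o1 : G.isOver v1 = false) (o2 : G.isOver v2 = false)
    (p1 : G.comp (G.partner v1) = j) (p2 : G.comp (G.partner v2) = j)
    (hall : ∀ v, G.comp v = k → G.isOver v = false →
      (G.comp (G.partner v) = k ∨ G.comp (G.partner v) = j) → v = v1 ∨ v = v2) :
    x v1 + x v2 = 2 * x (G.partner v1) ∧ x v1 + x v2 = 2 * x (G.partner v2) ∧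
      x (G.partner v1) ≠ x (G.partner v2) ∧ ∀ v, G.comp v = k → (x v = x v1 ∨ x v = x v2) := by
  have hvals : ∀ v, G.comp v = k → (x v = x v1 ∨ x v = x v2) := by
    refine comp_induction G (fun v => x v = x v1 ∨ x v = x v2) c1 (Or.inl rfl) ?_
    intro v hv ih
    by_cases h : G.isOver v = false ∧ (G.comp (G.partner v) = k ∨ G.comp (G.partner v) = j)
    · rcases hall v hv h.1 h.2 with rfl | rfl
      · exact Or.inl rfl
      · exact Or.inr rfl
    · show x v = x v1 ∨ x v = x v2
      rw [hx.nact v (Or.inl hv) h]; exact ih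
  have pcomp : ∀ v, G.comp v = k → G.comp (G.succ.symm v) = k := by
    intro v hv; rw [cpred]; exact hv
  -- the colour changes at both passes
  have e1 := hx.act v1 (Or.inl c1) o1 (Or.inr p1)
  have e2 := hx.act v2 (Or.inl c2) o2 (Or.inr p2)
  have ne1 : x (G.succ.symm v1) ≠ x v1 := by
    intro h
    rw [h] at e1
    apply hab
    rw [← hx.hk v1 c1, ← hx.hj _ p1]
    linear_combination 2 * e1
  have ne2 : x (G.succ.symm v2) ≠ x v2 := by
    intro h
    rw [h] at e2
    apply hab
    rw [← hx.hk v2 c2, ← hx.hj _ p2]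
    linear_combination 2 * e2
  have q1 : x (G.succ.symm v1) = x v2 := (hvals _ (pcomp v1 c1)).resolve_left ne1
  have q2 : x (G.succ.symm v2) = x v1 := (hvals _ (pcomp v2 c2)).resolve_right ne2
  have f1 : x v1 + x v2 = 2 * x (G.partner v1) := by rw [q1] at e1; linear_combination e1
  have f2 : x v1 + x v2 = 2 * x (G.partner v2) := by rw [q2] at e2; linear_combination e2
  have h12 : x v1 ≠ x v2 := by rw [← q1]; exact ne1.symm
  refine ⟨f1, f2, ?_, hvals⟩
  intro hβ
  apply hno
  let g : ZMod 16 → ZMod 16 := fun y => if y = x v1 then hf (x v1) else x (G.partner v1) - hf (x v1)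
  have g1 : g (x v1) = hf (x v1) := if_pos rfl
  have g2 : g (x v2) = x (G.partner v1) - hf (x v1) := if_neg h12.symm
  have h2 : 2 * hf (x v1) = x v1 := two_hf ha (hx.hk v1 c1)
  refine lift_col hkj hx g ?_ ?_ ?_
  · intro v hv
    rcases hvals v hv with h | h
    · rw [h, g1, h2]
    · rw [h, g2]
      linear_combination -f1 - h2
  · intro v hv ho hp
    rcases hall v hv ho (Or.inl hp) with rfl | rfl
    · rw [p1] at hp; exact (hkj hp.symm).elim
    · rw [p2] at hp; exact (hkj hp.symm).elim
  · intro v hv ho hp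
    rcases hall v hv ho (Or.inr hp) with rfl | rfl
    · rw [q1, g1, g2]; ring
    · rw [q2, g1, g2, ← hβ]

/-- Under-passes of `j` under `i` versus over-passes. -/
theorem ov_zero {G : GaussDiagram} {i j : G.K} (h : ov G i j = 0) :
    ∀ v, G.comp v = j → G.isOver v = false → G.comp (G.partner v) ≠ i := by
  have := G.finP
  intro v hv ho hp
  unfold ov at h
  rw [Set.ncard_eq_zero (Set.toFinite _)] at h
  have : G.partner v ∈ {p : G.P | G.isOver p = true ∧ G.comp p = i ∧ G.comp (G.partner p) = j} :=
    ⟨by rw [G.over_partner, ho]; rfl, hp, by rw [G.partner_partner]; exact hv⟩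
  rw [h] at this
  exact this

theorem ov_two {G : GaussDiagram} {i j : G.K} (h : ov G i j = 2) :
    ∃ v1 v2, G.comp v1 = j ∧ G.comp v2 = j ∧ G.isOver v1 = false ∧ G.isOver v2 = false ∧
      G.comp (G.partner v1) = i ∧ G.comp (G.partner v2) = i ∧
      ∀ v, G.comp v = j → G.isOver v = false → G.comp (G.partner v) = i → v = v1 ∨ v = v2 := by
  unfold ov at h
  rw [Set.ncard_eq_two] at h
  obtain ⟨o1, o2, hne, hS⟩ := h
  have m1 : o1 ∈ {p : G.P | G.isOver p = true ∧ G.comp p = i ∧ G.comp (G.partner p) = j} := by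
    rw [hS]; simp
  have m2 : o2 ∈ {p : G.P | G.isOver p = true ∧ G.comp p = i ∧ G.comp (G.partner p) = j} := by
    rw [hS]; simp
  refine ⟨G.partner o1, G.partner o2, m1.2.2, m2.2.2, by rw [G.over_partner, m1.1]; rfl,
    by rw [G.over_partner, m2.1]; rfl, by rw [G.partner_partner]; exact m1.2.1,
    by rw [G.partner_partner]; exact m2.2.1, ?_⟩
  intro v hv ho hp
  have : G.partner v ∈ {p : G.P | G.isOver p = true ∧ G.comp p = i ∧ G.comp (G.partner p) = j} :=
    ⟨by rw [G.over_partner, ho]; rfl, hp, by rw [G.partner_partner]; exact hv⟩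
  rw [hS] at this
  rcases this with h | h
  · left; rw [← h, G.partner_partner]
  · right
    rw [Set.mem_singleton_iff] at h
    rw [← h, G.partner_partner]

/-- Lower bound for the number of crossings inside the two-component sublink. -/
theorem lower_two {G : GaussDiagram} {k j : G.K} (hkj : k ≠ j)
    (ekj : ov G k j % 2 = 0) (ejk : ov G j k % 2 = 0)
    (ca : ∃ c, IsCol G (lamOp la) (colT G k j (S 4 0) (S 4 8)) c)
    (nb : ¬ ∃ c, IsCol G (lamOp lb) (colT G k j (S 8 0) (S 4 8)) c)
    (nc : ¬ ∃ c, IsCol G (lamOp lb) (colT G j k (S 8 8) (S 4 0)) c) :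
    5 ≤ ov G k k + ov G k j + ov G j k + ov G j j := by
  obtain ⟨c, hc⟩ := ca
  have hx := xcol_of_col hkj hc
  set x : G.P → ZMod 16 := fun v => (c v).2
  by_contra hlt
  push Not at hlt
  have h1 : ov G k j ≠ 0 := by
    intro h0
    exact nc (lift_of_never_under hkj.symm (by decide) hx.symm (ov_zero h0))
  have h2 : ov G j k ≠ 0 := by
    intro h0
    exact nb (lift_of_never_under hkj (by decide) hx (ov_zero h0))
  have e1 : ov G k j = 2 := by omega
  have e2 : ov G j k = 2 := by omega
  have e3 : ov G k k = 0 := by omega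
  have e4 : ov G j j = 0 := by omega
  obtain ⟨v1, v2, cv1, cv2, ov1, ov2, pv1, pv2, hv⟩ := ov_two e2
  obtain ⟨w1, w2, cw1, cw2, ow1, ow2, pw1, pw2, hw⟩ := ov_two e1
  obtain ⟨f1, f2, f3, f4⟩ := two_under hkj (by decide) (by decide) hx nb v1 v2 cv1 cv2 ov1 ov2 pv1
    pv2 (by
      intro v hv1 hv2 hv3
      rcases hv3 with h | h
      · exact (ov_zero e3 v hv1 hv2 h).elim
      · exact hv v hv1 hv2 h)
  obtain ⟨g1, g2, g3, g4⟩ := two_under hkj.symm (by decide) (by decide) hx.symm nc w1 w2 cw1 cw2 ow1
    ow2 pw1 pw2 (by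
      intro v hv1 hv2 hv3
      rcases hv3 with h | h
      · exact (ov_zero e4 v hv1 hv2 h).elim
      · exact hw v hv1 hv2 h)
  -- the over colours are exactly the two colours
  have a1 := f4 _ pw1
  have a2 := f4 _ pw2
  have sa : x (G.partner w1) + x (G.partner w2) = x v1 + x v2 := by
    rcases a1 with h | h <;> rcases a2 with h' | h'
    · exact (g3 (h.trans h'.symm)).elim
    · rw [h, h']
    · rw [h, h', add_comm]
    · exact (g3 (h.trans h'.symm)).elim
  have hA := hx.hk _ pw1
  have hB := hx.hj _ pv1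
  -- arithmetic in ZMod 16
  have key : ∀ p : ZMod 16, 4 * p = 0 → ∀ q : ZMod 16, 4 * q = 8 → ∀ r : ZMod 16, p ≠ r →
      p + r = 2 * q → 2 * p = 2 * r → False := by
    decide
  refine key (x (G.partner w1)) hA (x (G.partner v1)) hB (x (G.partner w2)) g3 ?_ ?_
  · rw [sa, f1]
  · rw [← g1, ← g2]

end Pool.Agent.Work.MP_7250c3_gt
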